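import Mathlib

set_option autoImplicit false

/-!
# Bi-invariant metrics and finite approximation: definitions
-/

namespace Pool.BiInv

/-- `d` is a bi-invariant pseudometric on the group `G`. -/
structure IsBiInvPseudo {G : Type} [Group G] (d : G → G → ℝ) : Prop where
  self : ∀ x, d x x = 0
  symm : ∀ x y, d x y = d y x
  tri : ∀ x y z, d x z ≤ d x y + d y z
  left : ∀ g x y, d (g * x) (g * y) = d x y
  right : ∀ g x y, d (x * g) (y * g) = d x y

/-- `d` is a bi-invariant metric on the group `G`. -/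
structure IsBiInvMetric {G : Type} [Group G] (d : G → G → ℝ) : Prop where
  zero_iff : ∀ x y, d x y = 0 ↔ x = y
  symm : ∀ x y, d x y = d y x
  tri : ∀ x y z, d x z ≤ d x y + d y z
  left : ∀ g x y, d (g * x) (g * y) = d x y
  right : ∀ g x y, d (x * g) (y * g) = d x y

/-- The conclusion of the question for one metric `ρ` on `F_n`, one finite set `A` and one `ε`:
there are a finite group with a bi-invariant metric and a partial monomorphism of `A` into it
which distorts distances by at most `ε`. -/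
def Embeds {n : ℕ} (ρ : FreeGroup (Fin n) → FreeGroup (Fin n) → ℝ)
    (A : Finset (FreeGroup (Fin n))) (ε : ℝ) : Prop :=
  ∃ (F : Type) (_ : Group F) (_ : Fintype F) (d : F → F → ℝ), IsBiInvMetric d ∧
    ∃ ι : FreeGroup (Fin n) → F,
      Set.InjOn ι (A : Set (FreeGroup (Fin n))) ∧
      (∀ a ∈ A, ∀ b ∈ A, a * b ∈ A → ι (a * b) = ι a * ι b) ∧
      (∀ a ∈ A, ∀ b ∈ A, |d (ι a) (ι b) - ρ a b| ≤ ε)

/-- The question has a positive answer for the metric `ρ`. -/
def Approximable {n : ℕ} (ρ : FreeGroup (Fin n) → FreeGroup (Fin n) → ℝ) : Prop :=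
  ∀ (A : Finset (FreeGroup (Fin n))) (ε : ℝ), 0 < ε → Embeds ρ A ε

/-- In every finite quotient (more precisely: under every homomorphism to a finite group) the
element `a` becomes a product of conjugates of the elements of the list `L`, in this order. -/
def InClosure {Γ : Type} [Group Γ] (a : Γ) (L : List Γ) : Prop :=
  ∀ (F : Type) [Group F] [Finite F] (φ : Γ →* F),
    ∃ M : List F, List.Forall₂ IsConj (L.map φ) M ∧ M.prod = φ a

/-- `ρ` is profinitely subadditive: `ρ(1,a) ≤ ρ(1,b₁)+…+ρ(1,b_k)` whenever `a` lies in the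
profinite closure of the product of the conjugacy classes of `b₁,…,b_k`. -/
def ProfSub {Γ : Type} [Group Γ] (ρ : Γ → Γ → ℝ) : Prop :=
  ∀ (a : Γ) (L : List Γ), InClosure a L → ρ 1 a ≤ (L.map (ρ 1)).sum

namespace IsBiInvMetric

variable {G : Type} [Group G] {d : G → G → ℝ}

lemma toPseudo (h : IsBiInvMetric d) : IsBiInvPseudo d :=
  ⟨fun x => (h.zero_iff x x).2 rfl, h.symm, h.tri, h.left, h.right⟩

end IsBiInvMetric

namespace IsBiInvPseudo

variable {G : Type} [Group G] {d : G → G → ℝ} (h : IsBiInvPseudo d)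
include h

lemma nonneg (x y : G) : 0 ≤ d x y := by
  have h1 := h.tri x y x
  rw [h.self, h.symm y x] at h1
  linarith

lemma eq_norm (x y : G) : d x y = d 1 (x⁻¹ * y) := by
  have := h.left x⁻¹ x y
  rw [inv_mul_cancel] at this
  exact this.symm

lemma norm_one : d 1 1 = 0 := h.self 1

lemma norm_inv (g : G) : d 1 g⁻¹ = d 1 g := by
  rw [h.symm 1 g⁻¹, h.eq_norm g⁻¹ 1, inv_inv, mul_one]

lemma norm_mul (g k : G) : d 1 (g * k) ≤ d 1 g + d 1 k := by
  have h1 := h.tri 1 g (g * k)
  have h2 := h.left g 1 k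
  rw [mul_one] at h2
  rwa [h2] at h1

lemma norm_conj (g k : G) : d 1 (k * g * k⁻¹) = d 1 g := by
  have h1 := h.left k 1 g
  have h2 := h.right k⁻¹ (k * 1) (k * g)
  rw [mul_one, mul_inv_cancel] at h2
  rw [h2]
  rw [mul_one] at h1
  exact h1

lemma norm_isConj {g k : G} (hc : IsConj g k) : d 1 g = d 1 k := by
  obtain ⟨c, rfl⟩ := isConj_iff.1 hc
  exact (h.norm_conj g c).symm

lemma norm_prod_le (M : List G) : d 1 M.prod ≤ (M.map (d 1)).sum := by
  induction M with
  | nil => simp [h.self]
  | cons g M ih =>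
    rw [List.prod_cons, List.map_cons, List.sum_cons]
    exact (h.norm_mul g M.prod).trans (by linarith)

lemma sum_norm_conj {L M : List G} (hLM : List.Forall₂ IsConj L M) :
    (L.map (d 1)).sum = (M.map (d 1)).sum := by
  induction hLM with
  | nil => rfl
  | cons hc _ ih => rw [List.map_cons, List.map_cons, List.sum_cons, List.sum_cons, ih,
      h.norm_isConj hc]

end IsBiInvPseudo

end Pool.BiInv
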