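import Mathlib
import Pool.Agent.BiInv.Defs

set_option autoImplicit false

/-!
# Construction of finite metric groups from profinite subadditivity
-/

namespace Pool.BiInv

section Norm

/-- A weighted finite family in a group `G`, closed under inverses, generates a conjugation
invariant norm. -/
theorem exists_metric {G I : Type} [Group G] (u : I → G) (N : I → ℝ) (inv : I → I)
    (hu : ∀ i, u (inv i) = (u i)⁻¹) (hN : ∀ i, N (inv i) = N i)
    (δ D : ℝ) (hδ : 0 < δ) (hδN : ∀ i, δ ≤ N i) (hND : ∀ i, N i ≤ D) (hδD : δ ≤ D)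
    (hsep : ∀ (i : I) (L : List I), (L.map N).sum < N i →
      ¬ ∃ M : List G, List.Forall₂ IsConj (L.map u) M ∧ M.prod = u i) :
    ∃ d : G → G → ℝ, IsBiInvMetric d ∧ ∀ i, d 1 (u i) = N i := by
  classical
  let R : G → Set ℝ := fun x => {r | ∃ L : List I, (L.map N).sum = r ∧
    ∃ M : List G, List.Forall₂ IsConj (L.map u) M ∧ M.prod = x}
  let S : G → Set ℝ := fun x => insert D (R x)
  let l : G → ℝ := fun x => sInf (S x)
  have hsum0 : ∀ L : List I, 0 ≤ (L.map N).sum := by
    intro L
    apply List.sum_nonneg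
    intro r hr
    obtain ⟨i, _, rfl⟩ := List.mem_map.1 hr
    exact hδ.le.trans (hδN i)
  have hpos : ∀ x, ∀ r ∈ S x, 0 ≤ r := by
    intro x r hr
    rcases Set.mem_insert_iff.1 hr with h | ⟨L, rfl, _⟩
    · rw [h]; exact hδ.le.trans hδD
    · exact hsum0 L
  have hbdd : ∀ x, BddBelow (S x) := fun x => ⟨0, fun r hr => hpos x r hr⟩
  have hne : ∀ x, (S x).Nonempty := fun x => ⟨D, Set.mem_insert _ _⟩
  have hle : ∀ x, ∀ r ∈ S x, l x ≤ r := fun x r hr => csInf_le (hbdd x) hr
  have hl0 : ∀ x, 0 ≤ l x := fun x => le_csInf (hne x) (hpos x)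
  have hl1 : l 1 = 0 := by
    apply le_antisymm _ (hl0 1)
    apply hle
    right
    exact ⟨[], rfl, [], List.Forall₂.nil, rfl⟩
  have hlδ : ∀ x, x ≠ 1 → δ ≤ l x := by
    intro x hx
    apply le_csInf (hne x)
    intro r hr
    rcases Set.mem_insert_iff.1 hr with h | ⟨L, rfl, M, hM, hMx⟩
    · rw [h]; exact hδD
    · cases L with
      | nil =>
        rw [List.map_nil, List.forall₂_nil_left_iff] at hM
        rw [hM] at hMx
        exact absurd hMx.symm hx
      | cons i L =>
        rw [List.map_cons, List.sum_cons]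
        have := hsum0 L
        have := hδN i
        linarith
  have hinv : ∀ x, l x⁻¹ ≤ l x := by
    intro x
    apply le_csInf (hne x)
    intro r hr
    apply hle
    rcases Set.mem_insert_iff.1 hr with h | ⟨L, rfl, M, hM, hMx⟩
    · left; exact h
    · right
      refine ⟨(L.map inv).reverse, ?_, (M.map (fun x => x⁻¹)).reverse, ?_, ?_⟩
      · rw [List.map_reverse, List.sum_reverse, List.map_map]
        congr 1
        apply List.map_congr_left
        intro i _
        exact hN i
      · rw [List.map_reverse, List.forall₂_reverse_iff, List.map_map]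
        have h1 : (L.map (u ∘ inv)) = (L.map u).map (fun x => x⁻¹) := by
          rw [List.map_map]
          apply List.map_congr_left
          intro i _
          exact hu i
        rw [h1, List.forall₂_map_left_iff, List.forall₂_map_right_iff]
        refine hM.imp ?_
        intro a b hab
        obtain ⟨c, rfl⟩ := isConj_iff.1 hab
        exact isConj_iff.2 ⟨c, by group⟩
      · rw [← List.prod_inv_reverse, hMx]
  have hinv' : ∀ x, l x⁻¹ = l x := by
    intro x
    apply le_antisymm (hinv x)
    have := hinv x⁻¹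
    rwa [inv_inv] at this
  have hmul : ∀ x y, l (x * y) ≤ l x + l y := by
    intro x y
    have key : ∀ r ∈ S x, ∀ s ∈ S y, l (x * y) ≤ r + s := by
      intro r hr s hs
      have hr0 := hpos x r hr
      have hs0 := hpos y s hs
      rcases Set.mem_insert_iff.1 hr with h | ⟨L, rfl, M, hM, hMx⟩
      · have := hle (x * y) D (Set.mem_insert _ _)
        linarith
      · rcases Set.mem_insert_iff.1 hs with h' | ⟨L', rfl, M', hM', hMy⟩
        · have := hle (x * y) D (Set.mem_insert _ _)
          linarith
        · apply hle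
          right
          refine ⟨L ++ L', ?_, M ++ M', ?_, ?_⟩
          · rw [List.map_append, List.sum_append]
          · rw [List.map_append]
            exact List.rel_append hM hM'
          · rw [List.prod_append, hMx, hMy]
    have h1 : ∀ r ∈ S x, l (x * y) - r ≤ l y := by
      intro r hr
      apply le_csInf (hne y)
      intro s hs
      have := key r hr s hs
      linarith
    have h2 : l (x * y) - l y ≤ l x := by
      apply le_csInf (hne x)
      intro r hr
      have := h1 r hr
      linarith
    linarith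
  have hconj : ∀ g x, l (g * x * g⁻¹) ≤ l x := by
    intro g x
    apply le_csInf (hne x)
    intro r hr
    apply hle
    rcases Set.mem_insert_iff.1 hr with h | ⟨L, rfl, M, hM, hMx⟩
    · left; exact h
    · right
      refine ⟨L, rfl, M.map (MulAut.conj g), ?_, ?_⟩
      · rw [List.forall₂_map_right_iff]
        refine hM.imp ?_
        intro a b hab
        refine hab.trans ?_
        rw [MulAut.conj_apply]
        exact isConj_iff.2 ⟨g, rfl⟩
      · rw [← map_list_prod, hMx, MulAut.conj_apply]
  have hconj' : ∀ g x, l (g * x * g⁻¹) = l x := by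
    intro g x
    apply le_antisymm (hconj g x)
    have := hconj g⁻¹ (g * x * g⁻¹)
    have h2 : g⁻¹ * (g * x * g⁻¹) * g⁻¹⁻¹ = x := by group
    rwa [h2] at this
  have hval : ∀ i, l (u i) = N i := by
    intro i
    apply le_antisymm
    · apply hle
      right
      exact ⟨[i], by simp, [u i], List.Forall₂.cons (IsConj.refl _) List.Forall₂.nil, by simp⟩
    · apply le_csInf (hne _)
      intro r hr
      rcases Set.mem_insert_iff.1 hr with h | ⟨L, rfl, M, hM, hMx⟩
      · rw [h]; exact hND i
      · by_contra hcon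
        exact hsep i L (not_le.1 hcon) ⟨M, hM, hMx⟩
  refine ⟨fun x y => l (x⁻¹ * y), ⟨?_, ?_, ?_, ?_, ?_⟩, ?_⟩
  · intro x y
    constructor
    · intro h
      by_contra hxy
      have h1 : x⁻¹ * y ≠ 1 := fun h2 => hxy (inv_mul_eq_one.1 h2)
      have h2 : l (x⁻¹ * y) = 0 := h
      have := hlδ _ h1
      linarith
    · intro h
      show l (x⁻¹ * y) = 0
      rw [h, inv_mul_cancel, hl1]
  · intro x y
    show l (x⁻¹ * y) = l (y⁻¹ * x)
    rw [← hinv' (y⁻¹ * x)]
    congr 1
    group
  · intro x y z
    show l (x⁻¹ * z) ≤ l (x⁻¹ * y) + l (y⁻¹ * z)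
    have := hmul (x⁻¹ * y) (y⁻¹ * z)
    have h2 : x⁻¹ * y * (y⁻¹ * z) = x⁻¹ * z := by group
    rwa [h2] at this
  · intro g x y
    show l ((g * x)⁻¹ * (g * y)) = l (x⁻¹ * y)
    congr 1
    group
  · intro g x y
    show l ((x * g)⁻¹ * (y * g)) = l (x⁻¹ * y)
    have := hconj' g⁻¹ (x⁻¹ * y)
    rw [← this]
    congr 1
    group
  · intro i
    show l (1⁻¹ * u i) = N i
    rw [inv_one, one_mul]
    exact hval i

end Norm

/-- Profinite subadditivity gives *exact* embeddings of finite sets into finite metric groups,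
by homomorphisms, whenever the pseudometric separates the points of the finite set. -/
theorem exists_exact {Γ : Type} [Group Γ] (ρ : Γ → Γ → ℝ) (hp : IsBiInvPseudo ρ)
    (hsub : ProfSub ρ) (A : Finset Γ) (hA : ∀ a ∈ A, ∀ b ∈ A, a ≠ b → 0 < ρ a b) :
    ∃ (F : Type) (_ : Group F) (_ : Finite F) (d : F → F → ℝ) (φ : Γ →* F), IsBiInvMetric d ∧
      Set.InjOn φ (A : Set Γ) ∧ ∀ a ∈ A, ∀ b ∈ A, d (φ a) (φ b) = ρ a b := by
  classical
  let S : Finset Γ := ((A ×ˢ A).image (fun p => p.1⁻¹ * p.2)).filter (fun g => g ≠ 1)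
  have hSmem : ∀ a ∈ A, ∀ b ∈ A, a ≠ b → a⁻¹ * b ∈ S := by
    intro a ha b hb hab
    rw [Finset.mem_filter, Finset.mem_image]
    exact ⟨⟨(a, b), Finset.mem_product.2 ⟨ha, hb⟩, rfl⟩, fun h => hab (inv_mul_eq_one.1 h)⟩
  have hSinv : ∀ g ∈ S, g⁻¹ ∈ S := by
    intro g hg
    rw [Finset.mem_filter, Finset.mem_image] at hg ⊢
    obtain ⟨⟨⟨a, b⟩, hab, rfl⟩, hne⟩ := hg
    refine ⟨⟨(b, a), ?_, by simp⟩, fun h => hne (inv_eq_one.1 h)⟩
    rw [Finset.mem_product] at hab ⊢
    exact ⟨hab.2, hab.1⟩
  have hSpos : ∀ g ∈ S, 0 < ρ 1 g := by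
    intro g hg
    rw [Finset.mem_filter, Finset.mem_image] at hg
    obtain ⟨⟨⟨a, b⟩, hab, rfl⟩, hne⟩ := hg
    rw [Finset.mem_product] at hab
    have h1 := hA a hab.1 b hab.2 (fun h => hne (inv_mul_eq_one.2 h))
    rw [hp.eq_norm] at h1
    exact h1
  by_cases hSe : S.Nonempty
  · obtain ⟨g0, hg0, hg0min⟩ := S.exists_min_image (fun g => ρ 1 g) hSe
    obtain ⟨g1, hg1, hg1max⟩ := S.exists_max_image (fun g => ρ 1 g) hSe
    set δ := ρ 1 g0 with hδdef
    set D := ρ 1 g1 with hDdef
    have hδ : 0 < δ := hSpos g0 hg0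
    let K : ℕ := ⌈D / δ⌉₊
    let cost : List S → ℝ := fun L => (L.map (fun s : S => ρ 1 (s : Γ))).sum
    have hex : ∀ p : S × List S, ∃ (F : Type) (_ : Group F) (_ : Finite F) (φ : Γ →* F),
        cost p.2 < ρ 1 (p.1 : Γ) →
        ¬ ∃ M : List F, List.Forall₂ IsConj ((p.2.map (fun s : S => (s : Γ))).map φ) M ∧
          M.prod = φ p.1 := by
      intro p
      by_cases hc : cost p.2 < ρ 1 (p.1 : Γ)
      · have h1 : ¬ InClosure (p.1 : Γ) (p.2.map (fun s : S => (s : Γ))) := by
          intro hcl
          have h2 := hsub _ _ hcl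
          rw [List.map_map] at h2
          have h3 : (p.2.map ((ρ 1) ∘ fun s : S => (s : Γ))).sum = cost p.2 := rfl
          rw [h3] at h2
          exact absurd hc (not_lt.2 h2)
        unfold InClosure at h1
        push Not at h1
        obtain ⟨F, hG, hF, φ, hφ⟩ := h1
        refine ⟨F, hG, hF, φ, fun _ => ?_⟩
        rintro ⟨M, hM, hMp⟩
        exact hφ M hM hMp
      · exact ⟨Unit, inferInstance, inferInstance, 1, fun h => absurd h hc⟩
    choose Fam instG instF φ hφ using hex
    let I := {p : S × List S // p.2.length ≤ K}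
    have hIfin : Finite I := by
      have h1 : ({l : List S | l.length ≤ K} : Set (List S)).Finite := List.finite_length_le S K
      have h2 : ((Set.univ : Set S) ×ˢ {l : List S | l.length ≤ K}).Finite :=
        Set.Finite.prod Set.finite_univ h1
      have h3 : ({p : S × List S | p.2.length ≤ K} : Set (S × List S)).Finite := by
        apply h2.subset
        intro p hp
        exact ⟨trivial, hp⟩
      exact h3.to_subtype
    let G := ∀ p : I, Fam p.1
    let instI : ∀ p : I, Group (Fam p.1) := fun p => instG p.1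
    have instJ : ∀ p : I, Finite (Fam p.1) := fun p => instF p.1
    have instK : Finite G := Pi.finite
    let Φ : Γ →* G := MonoidHom.pi (fun p : I => φ p.1)
    let u : S → G := fun s => Φ (s : Γ)
    let N : S → ℝ := fun s => ρ 1 (s : Γ)
    let inv : S → S := fun s => ⟨(s : Γ)⁻¹, hSinv _ s.2⟩
    have hδN : ∀ s : S, δ ≤ N s := fun s => hg0min s s.2
    have hlen : ∀ L : List S, (L.length : ℝ) * δ ≤ (L.map N).sum := by
      intro L
      induction L with
      | nil => simp
      | cons s L ih =>
        rw [List.length_cons, List.map_cons, List.sum_cons]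
        push_cast
        have := hδN s
        linarith
    obtain ⟨d, hd, hdu⟩ := exists_metric u N inv
      (fun s => map_inv Φ (s : Γ))
      (fun s => hp.norm_inv (s : Γ)) δ D hδ hδN
      (fun s => hg1max s s.2) (hg0min g1 hg1) (by
        intro s L hL
        rintro ⟨M, hM, hMp⟩
        have hK : L.length ≤ K := by
          have h1 := hlen L
          have h2 : N s ≤ D := hg1max s s.2
          have h3 : (L.length : ℝ) * δ < D := by linarith
          have h4 : (L.length : ℝ) < D / δ := by rwa [lt_div_iff₀ hδ]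
          have h5 : (L.length : ℝ) ≤ (K : ℝ) := h4.le.trans (Nat.le_ceil _)
          exact_mod_cast h5
        have hcost : cost (s, L).2 < ρ 1 ((s, L).1 : Γ) := hL
        apply hφ (s, L) hcost
        let p : I := ⟨(s, L), hK⟩
        refine ⟨M.map (fun x : G => x p), ?_, ?_⟩
        · rw [List.forall₂_map_right_iff, List.map_map, List.forall₂_map_left_iff]
          rw [List.forall₂_map_left_iff] at hM
          refine hM.imp ?_
          intro t x htx
          obtain ⟨c, hc⟩ := isConj_iff.1 htx
          refine isConj_iff.2 ⟨c p, ?_⟩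
          have := congrFun hc p
          exact this
        · have h1 : (M.map (fun x : G => x p)).prod = M.prod p := by
            have := map_list_prod (Pi.evalMonoidHom (fun p : I => Fam p.1) p) M
            exact this.symm
          rw [h1, hMp]
          rfl)
    have hdn : ∀ a ∈ A, ∀ b ∈ A, d (Φ a) (Φ b) = ρ a b := by
      intro a ha b hb
      by_cases hab : a = b
      · rw [hab, (hd.zero_iff _ _).2 rfl, hp.self]
      · rw [hd.toPseudo.eq_norm, hp.eq_norm a b, ← map_inv, ← map_mul]
        exact hdu ⟨a⁻¹ * b, hSmem a ha b hb hab⟩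
    refine ⟨G, inferInstance, inferInstance, d, Φ, hd, ?_, hdn⟩
    intro a ha b hb hab
    by_contra hne
    have h1 := hdn a ha b hb
    rw [hab, (hd.zero_iff _ _).2 rfl] at h1
    exact (hA a ha b hb hne).ne h1
  · refine ⟨Unit, inferInstance, inferInstance, fun _ _ => 0, 1, ⟨?_, ?_, ?_, ?_, ?_⟩, ?_, ?_⟩
    · intro x y; simp
    · intro x y; rfl
    · intro x y z; simp
    · intro g x y; rfl
    · intro g x y; rfl
    · intro a ha b hb _
      by_contra hne
      exact hSe ⟨_, hSmem a ha b hb hne⟩
    · intro a ha b hb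
      have hab : a = b := by
        by_contra hne
        exact hSe ⟨_, hSmem a ha b hb hne⟩
      rw [hab, hp.self]

end Pool.BiInv
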