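import Mathlib

set_option autoImplicit false

/-!
# Residual finiteness of finitely generated groups of nilpotency class at most two
-/

namespace Pool.BiInv

open Subgroup
open scoped commutatorElement

lemma finiteIndex_comap {G G' : Type} [Group G] [Group G'] (f : G →* G') {H : Subgroup G'}
    (hH : H.FiniteIndex) : (H.comap f).FiniteIndex := by
  constructor
  rw [index_comap]
  intro h
  exact hH.index_ne_zero (index_eq_zero_of_relIndex_eq_zero h)

theorem rf_comm (A : Type) [CommGroup A] [Group.FG A] : Group.ResiduallyFinite A := by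
  apply Group.residuallyFinite_of_forall_exists_finite_monoidHom
  intro g hg
  obtain ⟨ι, j, _, _, p, hp, e, ⟨f⟩⟩ := CommGroup.equiv_free_prod_prod_multiplicative_zmod A
  have hfg : f g ≠ 1 := fun h => hg ((map_eq_one_iff f f.injective).1 h)
  by_cases h1 : (f g).1 = 1
  · have h2 : (f g).2 ≠ 1 := fun h2 => hfg (Prod.ext h1 h2)
    have hne : ∀ i, NeZero (p i ^ e i) := fun i => ⟨pow_ne_zero _ (hp i).ne_zero⟩
    have hfin : ∀ i, Finite (Multiplicative (ZMod (p i ^ e i))) := fun i =>
      Finite.of_equiv (ZMod (p i ^ e i)) Multiplicative.ofAdd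
    exact ⟨((i : ι) → Multiplicative (ZMod (p i ^ e i))), inferInstance, Pi.finite,
      (MonoidHom.snd _ _).comp f.toMonoidHom, h2⟩
  · have h2 : ∃ k, (f g).1 k ≠ 1 := by
      by_contra hcon
      push Not at hcon
      exact h1 (funext hcon)
    obtain ⟨k, hk⟩ := h2
    set z : ℤ := Multiplicative.toAdd ((f g).1 k) with hz
    have hz0 : z ≠ 0 := fun h => hk (by
      rw [hz] at h
      exact Multiplicative.toAdd.injective (by simpa using h))
    have hfin : Finite (Multiplicative (ZMod (z.natAbs + 1))) :=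
      Finite.of_equiv (ZMod (z.natAbs + 1)) Multiplicative.ofAdd
    let q : Multiplicative ℤ →* Multiplicative (ZMod (z.natAbs + 1)) :=
      (Int.castAddHom (ZMod (z.natAbs + 1))).toMultiplicative
    refine ⟨Multiplicative (ZMod (z.natAbs + 1)), inferInstance, hfin,
      q.comp ((Pi.evalMonoidHom _ k).comp ((MonoidHom.fst _ _).comp f.toMonoidHom)), ?_⟩
    intro h
    have h3 : ((z : ℤ) : ZMod (z.natAbs + 1)) = 0 := by
      have h4 : q ((f g).1 k) = 1 := h
      have h5 : Multiplicative.ofAdd ((z : ℤ) : ZMod (z.natAbs + 1)) = 1 := h4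
      exact Multiplicative.ofAdd.injective (by simpa using h5)
    rw [ZMod.intCast_zmod_eq_zero_iff_dvd] at h3
    have h4 := Int.natAbs_dvd_natAbs.2 h3
    have h5 : ((((z.natAbs + 1 : ℕ)) : ℤ)).natAbs = z.natAbs + 1 := by
      rw [Int.natAbs_natCast]
    rw [h5] at h4
    have h6 := Nat.le_of_dvd (Int.natAbs_pos.2 hz0) h4
    omega

/-- elements outside the commutator subgroup of a finitely generated group are separated. -/
theorem sep_of_notMem_commutator (G : Type) [Group G] [Group.FG G] (g : G)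
    (hg : g ∉ _root_.commutator G) : ∃ H : Subgroup G, H.FiniteIndex ∧ g ∉ H := by
  have hfg : Group.FG (Abelianization G) :=
    Group.fg_of_surjective (f := Abelianization.of) (by
      intro x
      obtain ⟨y, rfl⟩ := QuotientGroup.mk_surjective x
      exact ⟨y, rfl⟩)
  have hrf := rf_comm (Abelianization G)
  rw [Group.residuallyFinite_iff_exists_finiteIndex] at hrf
  obtain ⟨H, hH, hgH⟩ := hrf (Abelianization.of g) (by
    intro h
    apply hg
    rw [← Abelianization.ker_of]
    exact h)
  exact ⟨H.comap Abelianization.of, finiteIndex_comap _ hH, hgH⟩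

section Class2

variable {Q : Type} [Group Q] (hQ : ∀ x y z : Q, ⁅⁅x, y⁆, z⁆ = 1)
include hQ

lemma comm_central (x y z : Q) : ⁅x, y⁆ * z = z * ⁅x, y⁆ :=
  commutatorElement_eq_one_iff_mul_comm.1 (hQ x y z)

lemma comm_mul_left (x x' y : Q) : ⁅x * x', y⁆ = ⁅x, y⁆ * ⁅x', y⁆ := by
  have h1 : ⁅x * x', y⁆ = x * ⁅x', y⁆ * x⁻¹ * ⁅x, y⁆ := by
    simp only [commutatorElement_def]
    group
  rw [h1, ← comm_central hQ x' y x, mul_assoc ⁅x', y⁆, mul_inv_cancel, mul_one]
  exact comm_central hQ _ _ _

/-- `x ↦ ⁅x, y⁆` as a homomorphism. -/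
def commHom (y : Q) : Q →* Q where
  toFun x := ⁅x, y⁆
  map_one' := by simp [commutatorElement_def]
  map_mul' x x' := comm_mul_left hQ x x' y

lemma comm_fg [Group.FG Q] : (_root_.commutator Q).FG := by
  classical
  obtain ⟨S, hS⟩ := (Group.fg_def (G := Q)).1 inferInstance
  let T : Finset Q := (S ×ˢ S).image (fun p => ⁅p.1, p.2⁆)
  let D : Subgroup Q := closure (T : Set Q)
  have h1 : ∀ y ∈ S, ∀ x : Q, ⁅x, y⁆ ∈ D := by
    intro y hy x
    have h2 : closure (S : Set Q) ≤ D.comap (commHom hQ y) := by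
      rw [closure_le]
      intro s hs
      show ⁅s, y⁆ ∈ D
      apply Subgroup.subset_closure
      exact Finset.mem_coe.2 (Finset.mem_image.2 ⟨(s, y), Finset.mem_product.2 ⟨hs, hy⟩, rfl⟩)
    rw [hS] at h2
    exact h2 (mem_top x)
  have h2 : ∀ x y : Q, ⁅x, y⁆ ∈ D := by
    intro x y
    have h3 : closure (S : Set Q) ≤ D.comap (commHom hQ x) := by
      rw [closure_le]
      intro s hs
      show ⁅s, x⁆ ∈ D
      rw [← commutatorElement_inv]
      exact D.inv_mem (h1 s hs x)
    rw [hS] at h3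
    have h4 : ⁅y, x⁆ ∈ D := h3 (mem_top y)
    rw [← commutatorElement_inv]
    exact D.inv_mem h4
  refine ⟨T, le_antisymm ?_ ?_⟩
  · rw [closure_le]
    intro c hc
    obtain ⟨⟨s, t⟩, _, rfl⟩ := Finset.mem_image.1 (Finset.mem_coe.1 hc)
    exact commutator_mem_commutator (mem_top _) (mem_top _)
  · rw [_root_.commutator_def, commutator_le]
    intro x _ y _
    exact h2 x y

theorem rf_class2 [Group.FG Q] : Group.ResiduallyFinite Q := by
  rw [Group.residuallyFinite_iff_exists_finiteIndex]
  intro g hg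
  by_cases hgc : g ∈ _root_.commutator Q
  swap
  · exact sep_of_notMem_commutator Q g hgc
  set C : Subgroup Q := _root_.commutator Q with hC
  have hCc : ∀ c ∈ C, ∀ z : Q, c * z = z * c := by
    intro c hc z
    have h1 : C ≤ center Q := by
      rw [hC, commutator_def, commutator_le]
      intro x _ y _
      rw [mem_center_iff]
      intro z
      exact (comm_central hQ x y z).symm
    exact ((mem_center_iff.1 (h1 hc)) z).symm
  have hCfg : Group.FG C := (Group.fg_iff_subgroup_fg C).2 (comm_fg hQ)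
  let : CommGroup C :=
    { (inferInstance : Group C) with mul_comm := fun a b => Subtype.ext (hCc a a.2 b) }
  have hrf := rf_comm C
  rw [Group.residuallyFinite_iff_exists_finiteIndex] at hrf
  obtain ⟨W0, hW0, hgW0⟩ := hrf ⟨g, hgc⟩ (fun h => hg (congrArg Subtype.val h))
  set m := W0.index with hm
  have hm0 : m ≠ 0 := hW0.index_ne_zero
  have hgm : ∀ c ∈ C, c ^ m ≠ g := by
    intro c hc h
    apply hgW0
    have h1 := W0.pow_index_mem ⟨c, hc⟩
    have h2 : (⟨c, hc⟩ : C) ^ m = ⟨g, hgc⟩ := Subtype.ext h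
    rw [← hm, h2] at h1
    exact h1
  let P : Subgroup Q := ((powMonoidHom m : C →* C).range).map C.subtype
  have hgP : g ∉ P := by
    rintro ⟨_, ⟨c, rfl⟩, h⟩
    exact hgm c c.2 h
  have hfgA : Group.FG (Abelianization Q) :=
    Group.fg_of_surjective (f := Abelianization.of) (by
      intro x
      obtain ⟨y, rfl⟩ := QuotientGroup.mk_surjective x
      exact ⟨y, rfl⟩)
  have hfi := finiteIndex_range_powMonoidHom_of_fg (Abelianization Q) hm0
  let T : Subgroup Q := ((powMonoidHom m : Abelianization Q →* _).range).comap Abelianization.of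
  have hT : T.FiniteIndex := finiteIndex_comap _ hfi
  have hgT : g ∈ T := by
    refine ⟨1, ?_⟩
    rw [map_one]
    symm
    have : g ∈ (Abelianization.of : Q →* _).ker := by rw [Abelianization.ker_of]; exact hgc
    exact this
  have hTP : ∀ t ∈ T, ∀ y : Q, ⁅t, y⁆ ∈ P := by
    rintro t ⟨a, ha⟩ y
    obtain ⟨x, rfl⟩ := QuotientGroup.mk_surjective a
    have h1 : Abelianization.of (x ^ m) = Abelianization.of t := by
      rw [map_pow]; exact ha
    have h2 : (x ^ m)⁻¹ * t ∈ C := by
      have : (x ^ m)⁻¹ * t ∈ (Abelianization.of : Q →* _).ker := by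
        rw [MonoidHom.mem_ker, map_mul, map_inv, h1, inv_mul_cancel]
      rwa [Abelianization.ker_of] at this
    have h3 : t = x ^ m * ((x ^ m)⁻¹ * t) := by group
    have h4 : ⁅t, y⁆ = ⁅x, y⁆ ^ m := by
      have h5 : (commHom hQ y) t = (commHom hQ y) x ^ m * (commHom hQ y) ((x ^ m)⁻¹ * t) := by
        rw [← map_pow, ← map_mul, ← h3]
      have h6 : (commHom hQ y) ((x ^ m)⁻¹ * t) = 1 :=
        commutatorElement_eq_one_iff_mul_comm.2 (hCc _ h2 y)
      rw [h6, mul_one] at h5
      exact h5
    rw [h4]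
    exact ⟨(⟨⁅x, y⁆, commutator_mem_commutator (mem_top _) (mem_top _)⟩ : C) ^ m,
      ⟨⟨⁅x, y⁆, commutator_mem_commutator (mem_top _) (mem_top _)⟩, rfl⟩, rfl⟩
  have hTfg : Group.FG T := inferInstance
  obtain ⟨H, hH, hgH⟩ := sep_of_notMem_commutator T ⟨g, hgT⟩ (by
    intro h
    have h1 : _root_.commutator T ≤ P.subgroupOf T := by
      rw [_root_.commutator_def, commutator_le]
      intro x _ y _
      exact hTP x x.2 y
    exact hgP (h1 h))
  refine ⟨H.map T.subtype, ⟨?_⟩, ?_⟩
  · rw [index_map_subtype]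
    exact mul_ne_zero hH.index_ne_zero hT.index_ne_zero
  · rintro ⟨x, hx, h⟩
    apply hgH
    have : x = ⟨g, hgT⟩ := Subtype.ext h
    rwa [← this]

end Class2

end Pool.BiInv
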