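import Mathlib
import Pool.Agent.BiInv.Defs
import Pool.Agent.BiInv.Resid

set_option autoImplicit false

/-!
# Products of conjugacy classes in some virtually nilpotent groups of class two are closed
-/

namespace Pool.BiInv

open Subgroup
open scoped commutatorElement

/-- lifting lists of conjugates along a surjection -/
lemma lift_conj {G G' : Type} [Group G] [Group G'] (f : G →* G') (hf : Function.Surjective f)
    (L : List G) (M' : List G') (h : List.Forall₂ IsConj (L.map f) M') :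
    ∃ M : List G, List.Forall₂ IsConj L M ∧ M.map f = M' := by
  induction L generalizing M' with
  | nil =>
    rw [List.map_nil, List.forall₂_nil_left_iff] at h
    exact ⟨[], List.Forall₂.nil, by rw [h]; rfl⟩
  | cons b L ih =>
    rw [List.map_cons, List.forall₂_cons_left_iff] at h
    obtain ⟨m', M'', hb, hL, rfl⟩ := h
    obtain ⟨M, hM, hMf⟩ := ih M'' hL
    obtain ⟨c', hc'⟩ := isConj_iff.1 hb
    obtain ⟨c, rfl⟩ := hf c'
    refine ⟨(c * b * c⁻¹) :: M, List.Forall₂.cons (isConj_iff.2 ⟨c, rfl⟩) hM, ?_⟩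
    rw [List.map_cons, hMf, map_mul, map_mul, map_inv, hc']

/-- The closure relation passes to images. -/
lemma InClosure.map {Γ Γ' : Type} [Group Γ] [Group Γ'] (θ : Γ →* Γ') {a : Γ} {L : List Γ}
    (h : InClosure a L) : InClosure (θ a) (L.map θ) := by
  intro F _ _ φ
  obtain ⟨M, hM, hMa⟩ := h F (φ.comp θ)
  refine ⟨M, ?_, hMa⟩
  rw [List.map_map]
  exact hM

section

variable {Q : Type} [Group Q] (N : Subgroup Q)

/-- Separating a central subgroup of a class-two normal subgroup of finite index. -/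
lemma sep_coset [Group.FG Q] [N.Normal] (hN : N.FiniteIndex)
    (hcl : ∀ x ∈ N, ∀ y ∈ N, ∀ z ∈ N, ⁅⁅x, y⁆, z⁆ = 1)
    (H : Subgroup Q) (hHN : H ≤ N) (hHc : ∀ h ∈ H, ∀ n ∈ N, h * n = n * h)
    (g : Q) (hg : g ∉ H) :
    ∃ K : Subgroup Q, K.FiniteIndex ∧ K.Normal ∧ ∀ k ∈ K, ∀ h ∈ H, g ≠ h * k := by
  by_cases hgN : g ∈ N
  swap
  · refine ⟨N, hN, inferInstance, ?_⟩
    intro k hk h hh hghk
    exact hgN (hghk ▸ N.mul_mem (hHN hh) hk)
  have hNfg : Group.FG N := inferInstance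
  let H1 : Subgroup N := H.subgroupOf N
  have hH1n : H1.Normal := by
    constructor
    intro h hh n
    have h1 := hHc h hh n n.2
    have h2 : n * h * n⁻¹ = h := by
      apply Subtype.ext
      show (n : Q) * h * (n : Q)⁻¹ = h
      rw [← h1]
      group
    rw [h2]
    exact hh
  have hfg1 : Group.FG (N ⧸ H1) :=
    Group.fg_of_surjective (f := QuotientGroup.mk' H1) (QuotientGroup.mk'_surjective H1)
  have hrf := rf_class2 (Q := N ⧸ H1) (by
    intro x y z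
    obtain ⟨x, rfl⟩ := QuotientGroup.mk'_surjective H1 x
    obtain ⟨y, rfl⟩ := QuotientGroup.mk'_surjective H1 y
    obtain ⟨z, rfl⟩ := QuotientGroup.mk'_surjective H1 z
    rw [← map_commutatorElement, ← map_commutatorElement]
    have h1 : ⁅⁅x, y⁆, z⁆ = 1 := Subtype.ext (hcl x x.2 y y.2 z z.2)
    rw [h1, map_one])
  rw [Group.residuallyFinite_iff_exists_finiteIndex] at hrf
  obtain ⟨W1, hW1, hgW1⟩ := hrf (QuotientGroup.mk' H1 ⟨g, hgN⟩) (by
    intro h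
    have h1 : (⟨g, hgN⟩ : N) ∈ (QuotientGroup.mk' H1).ker := h
    rw [QuotientGroup.ker_mk'] at h1
    exact hg h1)
  let W2 : Subgroup N := W1.comap (QuotientGroup.mk' H1)
  have hW2 : W2.FiniteIndex := finiteIndex_comap _ hW1
  let W : Subgroup Q := W2.map N.subtype
  have hW : W.FiniteIndex := by
    constructor
    rw [index_map_subtype]
    exact mul_ne_zero hW2.index_ne_zero hN.index_ne_zero
  have hHW : H ≤ W := by
    intro h hh
    refine ⟨⟨h, hHN hh⟩, ?_, rfl⟩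
    show QuotientGroup.mk' H1 ⟨h, hHN hh⟩ ∈ W1
    have h1 : QuotientGroup.mk' H1 ⟨h, hHN hh⟩ = 1 := by
      have : (⟨h, hHN hh⟩ : N) ∈ (QuotientGroup.mk' H1).ker := by
        rw [QuotientGroup.ker_mk']
        exact hh
      exact this
    rw [h1]
    exact W1.one_mem
  have hgW : g ∉ W := by
    rintro ⟨x, hx, h⟩
    apply hgW1
    have h1 : x = ⟨g, hgN⟩ := Subtype.ext h
    rw [← h1]
    exact hx
  refine ⟨W.normalCore, inferInstance, inferInstance, ?_⟩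
  intro k hk h hh hghk
  exact hgW (hghk ▸ W.mul_mem (hHW hh) (W.normalCore_le hk))

end

section

variable {Q : Type} [Group Q] {N : Subgroup Q}

lemma comm_mem [N.Normal] {x : Q} (hx : x ∈ N) (y : Q) : ⁅x, y⁆ ∈ N := by
  have h1 : ⁅x, y⁆ = x * (y * x⁻¹ * y⁻¹) := by
    simp only [commutatorElement_def]
    group
  rw [h1]
  exact N.mul_mem hx (Normal.conj_mem inferInstance _ (N.inv_mem hx) y)

/-- `x ↦ ⁅x, y⁆` as a homomorphism on `N`. -/
def commHomN [N.Normal] (hQ : ∀ x ∈ N, ∀ y : Q, ∀ z ∈ N, ⁅⁅x, y⁆, z⁆ = 1) (y : Q) : N →* Q where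
  toFun x := ⁅(x : Q), y⁆
  map_one' := by simp
  map_mul' x x' := by
    have h1 : ⁅(x : Q) * x', y⁆ = x * ⁅(x' : Q), y⁆ * (x : Q)⁻¹ * ⁅(x : Q), y⁆ := by
      simp only [commutatorElement_def]
      group
    have h2 : ⁅(x' : Q), y⁆ * x = x * ⁅(x' : Q), y⁆ :=
      commutatorElement_eq_one_iff_mul_comm.1 (hQ x' x'.2 y x x.2)
    have h3 : ⁅(x' : Q), y⁆ * ⁅(x : Q), y⁆ = ⁅(x : Q), y⁆ * ⁅(x' : Q), y⁆ :=
      commutatorElement_eq_one_iff_mul_comm.1 (hQ x' x'.2 y _ (comm_mem x.2 y))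
    show ⁅(x : Q) * x', y⁆ = _
    rw [h1, ← h2, ← h3]
    group

lemma commHomN_apply [N.Normal] (hQ : ∀ x ∈ N, ∀ y : Q, ∀ z ∈ N, ⁅⁅x, y⁆, z⁆ = 1) (y : Q)
    (x : N) : commHomN hQ y x = ⁅(x : Q), y⁆ := rfl

/-- The product of the conjugacy classes of the elements of a list is a finite union of cosets
of subgroups which are contained in `N` and centralised by `N`. -/
lemma prod_classes [N.Normal] (hN : N.FiniteIndex)
    (hQ : ∀ x ∈ N, ∀ y : Q, ∀ z ∈ N, ⁅⁅x, y⁆, z⁆ = 1) (L : List Q) :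
    ∃ (I : Type) (_ : Finite I) (H : I → Subgroup Q) (c : I → Q),
      (∀ i, H i ≤ N) ∧ (∀ i, ∀ h ∈ H i, ∀ n ∈ N, h * n = n * h) ∧
      (∀ i, ∀ h ∈ H i, ∃ M, List.Forall₂ IsConj L M ∧ M.prod = h * c i) ∧
      (∀ M, List.Forall₂ IsConj L M → ∃ i, ∃ h ∈ H i, M.prod = h * c i) := by
  induction L with
  | nil =>
    refine ⟨Unit, inferInstance, fun _ => ⊥, fun _ => 1, fun _ => bot_le, ?_, ?_, ?_⟩
    · intro _ h hh n _
      rw [mem_bot.1 hh, one_mul, mul_one]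
    · intro _ h hh
      exact ⟨[], List.Forall₂.nil, by rw [mem_bot.1 hh]; simp⟩
    · intro M hM
      rw [List.forall₂_nil_left_iff] at hM
      exact ⟨(), 1, one_mem _, by rw [hM]; simp⟩
  | cons b L ih =>
    obtain ⟨I, hI, H, c, h1, h2, h3, h4⟩ := ih
    have hfq : Finite (Q ⧸ N) := finiteIndex_iff_finite_quotient.1 hN
    let t : Q ⧸ N → Q := fun q => q.out
    let bt : Q ⧸ N → Q := fun q => t q * b * (t q)⁻¹
    have hcent : ∀ q : Q ⧸ N, ∀ y ∈ (commHomN hQ (bt q)).range, ∀ n ∈ N, y * n = n * y := by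
      rintro q _ ⟨x, rfl⟩ n hn
      exact commutatorElement_eq_one_iff_mul_comm.1 (hQ x x.2 _ n hn)
    let Hc : (Q ⧸ N) × I → Subgroup Q := fun p => (H p.2).map (MulAut.conj (bt p.1)).toMonoidHom
    have hHcN : ∀ p, Hc p ≤ N := by
      rintro p _ ⟨k, hk, rfl⟩
      exact Normal.conj_mem inferInstance _ (h1 p.2 hk) _
    have hHcc : ∀ p, ∀ k ∈ Hc p, ∀ n ∈ N, k * n = n * k := by
      rintro p _ ⟨k, hk, rfl⟩ n hn
      have h5 := h2 p.2 k hk ((bt p.1)⁻¹ * n * (bt p.1)) (by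
        have := Normal.conj_mem (inferInstance : N.Normal) n hn (bt p.1)⁻¹
        rwa [inv_inv] at this)
      show bt p.1 * k * (bt p.1)⁻¹ * n = n * (bt p.1 * k * (bt p.1)⁻¹)
      have h6 : bt p.1 * k * (bt p.1)⁻¹ * n
          = bt p.1 * (k * ((bt p.1)⁻¹ * n * (bt p.1))) * (bt p.1)⁻¹ := by group
      rw [h6, h5]
      group
    have hcomm : ∀ p : (Q ⧸ N) × I, ∀ (x : (commHomN hQ (bt p.1)).range) (y : Hc p),
        Commute ((commHomN hQ (bt p.1)).range.subtype x) ((Hc p).subtype y) := by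
      intro p x y
      exact hcent p.1 x x.2 y (hHcN p y.2)
    let HH : (Q ⧸ N) × I → Subgroup Q := fun p =>
      (MonoidHom.noncommCoprod ((commHomN hQ (bt p.1)).range.subtype) ((Hc p).subtype)
        (hcomm p)).range
    refine ⟨(Q ⧸ N) × I, inferInstance, HH, fun p => bt p.1 * c p.2, ?_, ?_, ?_, ?_⟩
    · rintro p _ ⟨⟨⟨_, ⟨x, rfl⟩⟩, y⟩, rfl⟩
      show ⁅(x : Q), bt p.1⁆ * (y : Q) ∈ N
      exact N.mul_mem (comm_mem x.2 _) (hHcN p y.2)
    · rintro p _ ⟨⟨x, y⟩, rfl⟩ n hn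
      show (x : Q) * (y : Q) * n = n * ((x : Q) * (y : Q))
      rw [mul_assoc, hHcc p y y.2 n hn, ← mul_assoc, hcent p.1 x x.2 n hn, mul_assoc]
    · rintro p _ ⟨⟨⟨_, ⟨x, rfl⟩⟩, ⟨_, ⟨k, hk, rfl⟩⟩⟩, rfl⟩
      obtain ⟨M, hM, hMp⟩ := h3 p.2 k hk
      refine ⟨((x : Q) * t p.1 * b * ((x : Q) * t p.1)⁻¹) :: M,
        List.Forall₂.cons (isConj_iff.2 ⟨(x : Q) * t p.1, rfl⟩) hM, ?_⟩
      rw [List.prod_cons, hMp]
      show _ = ⁅(x : Q), bt p.1⁆ * (bt p.1 * k * (bt p.1)⁻¹) * (bt p.1 * c p.2)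
      rw [commutatorElement_def]
      show _ = (x : Q) * (t p.1 * b * (t p.1)⁻¹) * (x : Q)⁻¹ * (t p.1 * b * (t p.1)⁻¹)⁻¹
        * ((t p.1 * b * (t p.1)⁻¹) * k * (t p.1 * b * (t p.1)⁻¹)⁻¹)
        * ((t p.1 * b * (t p.1)⁻¹) * c p.2)
      group
    · intro M hM
      rw [List.forall₂_cons_left_iff] at hM
      obtain ⟨m, M', hb, hL, rfl⟩ := hM
      obtain ⟨i, k, hk, hMk⟩ := h4 M' hL
      obtain ⟨x, rfl⟩ := isConj_iff.1 hb
      let q : Q ⧸ N := (x : Q ⧸ N)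
      have hx : (t q)⁻¹ * x ∈ N := by
        have : ((t q : Q) : Q ⧸ N) = (x : Q ⧸ N) := QuotientGroup.out_eq' q
        exact QuotientGroup.eq.1 this
      have hxn : x * (t q)⁻¹ ∈ N := by
        have := Normal.conj_mem (inferInstance : N.Normal) _ hx (t q)
        have h7 : t q * ((t q)⁻¹ * x) * (t q)⁻¹ = x * (t q)⁻¹ := by group
        rwa [h7] at this
      refine ⟨(q, i), _, ⟨⟨⟨_, ⟨⟨x * (t q)⁻¹, hxn⟩, rfl⟩⟩, ⟨_, ⟨k, hk, rfl⟩⟩⟩, rfl⟩, ?_⟩
      rw [List.prod_cons, hMk]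
      show _ = ⁅x * (t q)⁻¹, bt q⁆ * (bt q * k * (bt q)⁻¹) * (bt q * c i)
      rw [commutatorElement_def]
      show _ = x * (t q)⁻¹ * (t q * b * (t q)⁻¹) * (x * (t q)⁻¹)⁻¹ * (t q * b * (t q)⁻¹)⁻¹
        * ((t q * b * (t q)⁻¹) * k * (t q * b * (t q)⁻¹)⁻¹) * ((t q * b * (t q)⁻¹) * c i)
      group

/-- **Theorem.** In a finitely generated group with a normal subgroup `N` of finite index such
that `⁅⁅N, Q⁆, N⁆ = 1`, products of conjugacy classes are closed in the profinite topology. -/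
theorem closed_products [Group.FG Q] [N.Normal] (hN : N.FiniteIndex)
    (hQ : ∀ x ∈ N, ∀ y : Q, ∀ z ∈ N, ⁅⁅x, y⁆, z⁆ = 1) (a : Q) (L : List Q)
    (h : InClosure a L) : ∃ M, List.Forall₂ IsConj L M ∧ M.prod = a := by
  obtain ⟨I, hI, H, c, h1, h2, h3, h4⟩ := prod_classes hN hQ L
  by_contra hcon
  have hne : ∀ i, a * (c i)⁻¹ ∉ H i := by
    intro i hi
    obtain ⟨M, hM, hMp⟩ := h3 i _ hi
    exact hcon ⟨M, hM, by rw [hMp]; group⟩
  have hsep : ∀ i, ∃ K : Subgroup Q, K.FiniteIndex ∧ K.Normal ∧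
      ∀ k ∈ K, ∀ h ∈ H i, a * (c i)⁻¹ ≠ h * k := fun i =>
    sep_coset N hN (fun x hx y _ z hz => hQ x hx y z hz) (H i) (h1 i) (h2 i) _ (hne i)
  choose K hK1 hK2 hK3 using hsep
  let K0 : Subgroup Q := ⨅ i, K i
  have hK0 : K0.FiniteIndex := finiteIndex_iInf hK1
  have hK0n : K0.Normal := normal_iInf_normal hK2
  have hfin : Finite (Q ⧸ K0) := finiteIndex_iff_finite_quotient.1 hK0
  obtain ⟨M', hM', hMp⟩ := h (Q ⧸ K0) (QuotientGroup.mk' K0)
  obtain ⟨M, hM, hMf⟩ := lift_conj (QuotientGroup.mk' K0) (QuotientGroup.mk'_surjective K0) L M' hM'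
  obtain ⟨i, x, hx, hMx⟩ := h4 M hM
  rw [← hMf, ← map_list_prod] at hMp
  have h5 : (M.prod)⁻¹ * a ∈ K0 := QuotientGroup.eq.1 hMp
  have h6 : c i * ((M.prod)⁻¹ * a) * (c i)⁻¹ ∈ K0 := hK0n.conj_mem _ h5 _
  have h7 : c i * ((M.prod)⁻¹ * a) * (c i)⁻¹ ∈ K i := (iInf_le K i) h6
  apply hK3 i _ h7 x hx
  rw [hMx]
  group

end

/-- **Theorem.** A bi-invariant pseudometric `σ` on a finitely generated group `Γ`, such that for
every `ε > 0` there is a normal subgroup `N` of finite index with `σ(1,w) ≤ ε` for all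
`w ∈ ⁅⁅N, Γ⁆, N⁆`, is profinitely subadditive. -/
theorem profSub_of_class2 {Γ : Type} [Group Γ] [Group.FG Γ] (σ : Γ → Γ → ℝ)
    (hσ : IsBiInvPseudo σ)
    (h0 : ∀ ε : ℝ, 0 < ε → ∃ N : Subgroup Γ, N.Normal ∧ N.FiniteIndex ∧
      ∀ w ∈ ⁅⁅N, (⊤ : Subgroup Γ)⁆, N⁆, σ 1 w ≤ ε) : ProfSub σ := by
  intro a L hcl
  apply le_of_forall_pos_le_add
  intro ε hε
  obtain ⟨N, hNn, hN, hw⟩ := h0 ε hε
  let K : Subgroup Γ := ⁅⁅N, (⊤ : Subgroup Γ)⁆, N⁆
  have hKn : K.Normal := inferInstance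
  let π : Γ →* Γ ⧸ K := QuotientGroup.mk' K
  have hπ : Function.Surjective π := QuotientGroup.mk'_surjective K
  have hfg : Group.FG (Γ ⧸ K) := Group.fg_of_surjective (f := π) hπ
  let N' : Subgroup (Γ ⧸ K) := N.map π
  have hN'n : N'.Normal := Normal.map inferInstance π hπ
  have hN' : N'.FiniteIndex := by
    constructor
    intro h
    have h1 := index_map_dvd N hπ
    have h2 : N'.index = 0 := h
    have h3 : (N.map π).index = 0 := h2
    rw [h3, zero_dvd_iff] at h1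
    exact hN.index_ne_zero h1
  have hQ : ∀ x ∈ N', ∀ y : Γ ⧸ K, ∀ z ∈ N', ⁅⁅x, y⁆, z⁆ = 1 := by
    rintro _ ⟨x, hx, rfl⟩ y _ ⟨z, hz, rfl⟩
    obtain ⟨y, rfl⟩ := hπ y
    rw [← map_commutatorElement, ← map_commutatorElement]
    have h1 : ⁅⁅x, y⁆, z⁆ ∈ K :=
      commutator_mem_commutator (commutator_mem_commutator hx (mem_top y)) hz
    exact (QuotientGroup.eq_one_iff _).2 h1
  obtain ⟨M', hM', hMa⟩ := closed_products (N := N') hN' hQ (π a) (L.map π) (hcl.map π)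
  obtain ⟨M, hM, hMf⟩ := lift_conj π hπ L M' hM'
  rw [← hMf, ← map_list_prod] at hMa
  have h5 : (M.prod)⁻¹ * a ∈ K := QuotientGroup.eq.1 hMa
  have h6 : σ 1 ((M.prod)⁻¹ * a) ≤ ε := hw _ h5
  have h7 : σ 1 a ≤ σ 1 M.prod + ε := by
    have h8 := hσ.norm_mul M.prod ((M.prod)⁻¹ * a)
    rw [mul_inv_cancel_left] at h8
    linarith
  rw [hσ.sum_norm_conj hM]
  have h9 := hσ.norm_prod_le M
  linarith

end Pool.BiInv
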