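import Mathlib

set_option autoImplicit false
set_option linter.unusedSectionVars false

/-!
# Conjugacy separability of free groups

If two elements of a free group of finite rank are not conjugate, then their images in some
finite group are not conjugate.  The proof is by a labelled cycle: for a cyclically reduced word
`u` of length `m` the letters of `u` are turned into partial permutations of `ZMod m` along a
cycle labelled by `u`, these are extended to permutations, and every edge of the resulting graph
carries its own label in `ZMod 3`.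
-/

namespace Pool.BiInv

open FreeGroup

section Cycle

variable {α : Type} [Fintype α] [DecidableEq α]

/-- the cyclic word `U` has no cyclic cancellation -/
def NoCancel {m : ℕ} (U : ZMod m → α × Bool) : Prop :=
  ∀ i, (U i).1 = (U (i + 1)).1 → (U i).2 = (U (i + 1)).2

/-- `W U k j` is the word `U j, U (j+1), …, U (j+k-1)`. -/
def W {m : ℕ} (U : ZMod m → α × Bool) (k : ℕ) (j : ZMod m) : List (α × Bool) :=
  (List.range k).map (fun t : ℕ => U (j + (t : ZMod m)))

lemma W_zero {m : ℕ} (U : ZMod m → α × Bool) (j : ZMod m) : W U 0 j = [] := rfl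

lemma W_succ {m : ℕ} (U : ZMod m → α × Bool) (k : ℕ) (j : ZMod m) :
    W U (k + 1) j = U j :: W U k (j + 1) := by
  unfold W
  rw [List.range_succ_eq_map]
  rw [List.map_cons, List.map_map]
  have h1 : (fun t : ℕ => U (j + (t : ZMod m))) ∘ Nat.succ =
      fun t : ℕ => U (j + 1 + (t : ZMod m)) := by
    funext t
    show U (j + ((t + 1 : ℕ) : ZMod m)) = U (j + 1 + (t : ZMod m))
    congr 1
    push_cast
    ring
  rw [h1]
  congr 2
  simp

lemma W_succ' {m : ℕ} (U : ZMod m → α × Bool) (k : ℕ) (j : ZMod m) :
    W U (k + 1) j = W U k j ++ [U (j + (k : ZMod m))] := by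
  unfold W
  rw [List.range_succ]
  simp

lemma W_length {m : ℕ} (U : ZMod m → α × Bool) (k : ℕ) (j : ZMod m) :
    (W U k j).length = k := by simp [W]

lemma conj_W_succ {m : ℕ} [NeZero m] (U : ZMod m → α × Bool) (j : ZMod m) :
    IsConj (mk (W U m j)) (mk (W U m (j + 1))) := by
  obtain ⟨k, rfl⟩ : ∃ k, m = k + 1 := Nat.exists_eq_succ_of_ne_zero (NeZero.ne m)
  have h1 : W U (k + 1) j = [U j] ++ W U k (j + 1) := by rw [W_succ]; rfl
  have h2 : W U (k + 1) (j + 1) = W U k (j + 1) ++ [U j] := by
    rw [W_succ']
    congr 3
    have : ((k + 1 : ℕ) : ZMod (k + 1)) = 0 := ZMod.natCast_self (k + 1)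
    push_cast at this
    calc j + 1 + (k : ZMod (k + 1)) = j + ((k : ZMod (k + 1)) + 1) := by ring
      _ = j := by rw [this, add_zero]
  rw [h1, h2, ← mul_mk, ← mul_mk, isConj_iff]
  exact ⟨(mk [U j])⁻¹, by group⟩

lemma conj_W {m : ℕ} [NeZero m] (U : ZMod m → α × Bool) (j : ZMod m) :
    IsConj (mk (W U m 0)) (mk (W U m j)) := by
  have key : ∀ t : ℕ, IsConj (mk (W U m 0)) (mk (W U m (t : ZMod m))) := by
    intro t
    induction t with
    | zero =>
      have h0 : ((0 : ℕ) : ZMod m) = 0 := Nat.cast_zero
      rw [h0]
    | succ t ih =>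
      have := conj_W_succ U (t : ZMod m)
      push_cast
      exact ih.trans this
  have := key j.val
  rwa [ZMod.natCast_zmod_val] at this

lemma exists_perm {m : ℕ} [NeZero m] {U : ZMod m → α × Bool} (hU : NoCancel U) (a : α) :
    ∃ π : Equiv.Perm (ZMod m), (∀ i, U i = (a, true) → π (i + 1) = i) ∧
      (∀ i, U i = (a, false) → π i = i + 1) := by
  classical
  let s : Finset (ZMod m) := Finset.univ.filter
    (fun x => U x = (a, false) ∨ U (x - 1) = (a, true))
  let f : ZMod m → ZMod m := fun x => if U x = (a, false) then x + 1 else x - 1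
  have hinj : Set.InjOn f s := by
    intro x hx y hy hxy
    simp only [s, Finset.coe_filter, Finset.mem_univ, true_and, Set.mem_ofPred_eq] at hx hy
    by_cases h1 : U x = (a, false) <;> by_cases h2 : U y = (a, false)
    · simpa [f, h1, h2] using hxy
    · exfalso
      have h3 : U (y - 1) = (a, true) := hy.resolve_left h2
      have h4 : x + 1 = y - 1 := by simpa [f, h1, h2] using hxy
      have := hU x
      rw [h4, h1, h3] at this
      simp at this
    · exfalso
      have h3 : U (x - 1) = (a, true) := hx.resolve_left h1
      have h4 : x - 1 = y + 1 := by simpa [f, h1, h2] using hxy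
      have := hU y
      rw [← h4, h2, h3] at this
      simp at this
    · simpa [f, h1, h2] using hxy
  obtain ⟨g, hg⟩ := Finset.exists_equiv_extend_of_card_eq (t := (Finset.univ : Finset (ZMod m)))
    (by simp) (s := s) (f := f) (by simp) hinj
  let π : Equiv.Perm (ZMod m) := g.trans (Equiv.subtypeUnivEquiv (by simp))
  have hπ : ∀ i ∈ s, π i = f i := fun i hi => hg i hi
  refine ⟨π, ?_, ?_⟩
  · intro i hi
    have hmem : i + 1 ∈ s := by
      simp only [s, Finset.mem_filter, Finset.mem_univ, true_and]
      right
      simpa using hi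
    have hne : U (i + 1) ≠ (a, false) := by
      intro h
      have := hU i
      rw [hi, h] at this
      simp at this
    rw [hπ _ hmem]
    simp [f, hne]
  · intro i hi
    have hmem : i ∈ s := by
      simp only [s, Finset.mem_filter, Finset.mem_univ, true_and]
      exact Or.inl hi
    rw [hπ _ hmem]
    simp [f, hi]

end Cycle

section Mono

variable {α : Type} [Fintype α] [DecidableEq α] {X : Type} [Fintype X] [DecidableEq X]

/-- labels: one coordinate in `ZMod 3` for each edge `(a, x)` -/
abbrev Lab (α X : Type) : Type := α × X → ZMod 3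

/-- the monomial group: permutations of `X × Lab` commuting with the label translations -/
def Mon (α X : Type) : Subgroup (Equiv.Perm (X × Lab α X)) where
  carrier := {σ | ∀ x l k, σ (x, l + k) = ((σ (x, l)).1, (σ (x, l)).2 + k)}
  one_mem' := by intro x l k; rfl
  mul_mem' := by
    intro σ τ hσ hτ x l k
    have h1 := hτ x l k
    have h2 := hσ (τ (x, l)).1 (τ (x, l)).2 k
    simp only [Equiv.Perm.coe_mul, Function.comp_apply]
    rw [h1, h2]
  inv_mem' := by
    intro σ hσ x l k
    have h := hσ (σ⁻¹ (x, l)).1 (σ⁻¹ (x, l)).2 k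
    have h0 : ((σ⁻¹ (x, l)).1, (σ⁻¹ (x, l)).2) = σ⁻¹ (x, l) := rfl
    have h1 : σ (σ⁻¹ (x, l)) = (x, l) := Equiv.apply_symm_apply σ (x, l)
    rw [h0, h1] at h
    exact (Equiv.symm_apply_eq σ).2 h.symm

/-- the monomial permutation with underlying permutation `π` and labels `c` -/
def mono (π : Equiv.Perm X) (c : X → Lab α X) : Equiv.Perm (X × Lab α X) where
  toFun p := (π p.1, p.2 + c p.1)
  invFun p := (π⁻¹ p.1, p.2 - c (π⁻¹ p.1))
  left_inv p := by simp
  right_inv p := by simp

lemma mono_mem (π : Equiv.Perm X) (c : X → Lab α X) : mono π c ∈ Mon α X := by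
  intro x l k
  show (π x, l + k + c x) = (π x, l + c x + k)
  rw [add_right_comm]

/-- conjugate elements of the monomial group have the same labels at fixed points -/
lemma label_of_conj {σ τ : Mon α X} (h : IsConj σ τ) {x : X} {lam : Lab α X}
    (hσ : (σ : Equiv.Perm (X × Lab α X)) (x, 0) = (x, lam)) :
    ∃ y : X, (τ : Equiv.Perm (X × Lab α X)) (y, 0) = (y, lam) := by
  obtain ⟨c, hc⟩ := isConj_iff.1 h
  have hc' : τ * c = c * σ := by rw [← hc]; group
  have h1 : (τ : Equiv.Perm (X × Lab α X)) ((c : Equiv.Perm (X × Lab α X)) (x, 0)) =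
      (c : Equiv.Perm (X × Lab α X)) ((σ : Equiv.Perm (X × Lab α X)) (x, 0)) := by
    have := congrArg (fun z : Mon α X => (z : Equiv.Perm (X × Lab α X)) (x, 0)) hc'
    simpa using this
  rw [hσ] at h1
  have h2 := c.2 x 0 lam
  rw [zero_add] at h2
  set y := ((c : Equiv.Perm (X × Lab α X)) (x, 0)).1 with hy
  set k := ((c : Equiv.Perm (X × Lab α X)) (x, 0)).2 with hk
  have h3 : (c : Equiv.Perm (X × Lab α X)) (x, 0) = (y, k) := rfl
  rw [h3, h2] at h1
  have h4 := τ.2 y 0 k
  rw [zero_add, h1] at h4
  refine ⟨y, ?_⟩
  have h5 := (Prod.mk.injEq _ _ _ _).mp h4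
  apply Prod.ext
  · exact h5.1.symm
  · have := h5.2
    rw [add_comm k lam] at this
    exact (add_right_cancel this).symm

variable (π : α → Equiv.Perm X)

/-- one letter acting on the vertices -/
def step (c : α × Bool) : Equiv.Perm X := if c.2 then π c.1 else (π c.1)⁻¹

/-- the edge used by the letter `c` at the vertex `z` -/
def edge (c : α × Bool) (z : X) : α × X := if c.2 then (c.1, z) else (c.1, (π c.1)⁻¹ z)

/-- action of a word -/
def act : List (α × Bool) → X → X
  | [], x => x
  | c :: w, x => step π c (act w x)

/-- signed edges traversed by a word -/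
def path : List (α × Bool) → X → List ((α × X) × Bool)
  | [], _ => []
  | c :: w, x => (edge π c (act π w x), c.2) :: path w x

/-- the label of a signed edge -/
def val (p : (α × X) × Bool) : Lab α X := if p.2 then Pi.single p.1 1 else - Pi.single p.1 1

/-- the generators in the monomial group -/
def gen (a : α) : Mon α X := ⟨mono (π a) (fun x => Pi.single (a, x) 1), mono_mem _ _⟩

/-- the homomorphism to the monomial group -/
def rep : FreeGroup α →* Mon α X := FreeGroup.lift (gen π)

lemma path_length (w : List (α × Bool)) (x : X) : (path π w x).length = w.length := by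
  induction w with
  | nil => rfl
  | cons c w ih => simp [path, ih]

lemma rep_mk (w : List (α × Bool)) (x : X) (l : Lab α X) :
    (rep π (mk w) : Equiv.Perm (X × Lab α X)) (x, l) =
      (act π w x, l + ((path π w x).map val).sum) := by
  induction w with
  | nil =>
    have : rep π (mk []) = 1 := by
      rw [← one_eq_mk]; exact map_one _
    rw [this]
    simp [act, path]
  | cons c w ih =>
    have h1 : mk (c :: w) = mk [c] * mk w := by rw [mul_mk]; rfl
    rw [h1, MonoidHom.map_mul]
    have h2 : rep π (mk [c]) = if c.2 then gen π c.1 else (gen π c.1)⁻¹ := by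
      unfold rep
      rw [lift_mk]
      rcases c with ⟨a, b⟩
      cases b <;> simp
    rw [h2]
    simp only [Subgroup.coe_mul, Equiv.Perm.coe_mul, Function.comp_apply]
    rw [ih]
    rcases c with ⟨a, b⟩
    cases b
    · simp only [Bool.false_eq_true, if_false, act, path, step, edge, List.map_cons, val,
        List.sum_cons]
      show ((π a)⁻¹ (act π w x), _ - Pi.single (a, (π a)⁻¹ (act π w x)) 1) = _
      congr 1
      funext e
      simp only [Pi.add_apply, Pi.sub_apply, Pi.neg_apply]
      ring
    · simp only [if_true, act, path, step, edge, List.map_cons, val, List.sum_cons]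
      show (π a (act π w x), _ + Pi.single (a, act π w x) 1) = _
      congr 1
      funext e
      simp only [Pi.add_apply]
      ring

end Mono

section Count

variable {α : Type} [Fintype α] [DecidableEq α] {X : Type} [Fintype X] [DecidableEq X]

lemma sum_val_zero (P : List ((α × X) × Bool)) (e : α × X) (he : ∀ p ∈ P, p.1 ≠ e) :
    ((P.map val).sum) e = 0 := by
  induction P with
  | nil => simp
  | cons p P ih =>
    have h1 : p.1 ≠ e := he p (by simp)
    have h2 := ih (fun q hq => he q (by simp [hq]))
    rw [List.map_cons, List.sum_cons, Pi.add_apply, h2, add_zero]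
    unfold val
    split_ifs
    · exact Pi.single_eq_of_ne (Ne.symm h1) _
    · rw [Pi.neg_apply, Pi.single_eq_of_ne (Ne.symm h1), neg_zero]

lemma sum_val_mem (P : List ((α × X) × Bool)) (hP : (P.map Prod.fst).Nodup)
    (p : (α × X) × Bool) (hp : p ∈ P) :
    ((P.map val).sum) p.1 = if p.2 then 1 else -1 := by
  induction P with
  | nil => simp at hp
  | cons q P ih =>
    rw [List.map_cons, List.nodup_cons] at hP
    rw [List.map_cons, List.sum_cons, Pi.add_apply]
    rcases List.mem_cons.1 hp with h | h
    · subst h
      have h2 : ((P.map val).sum) p.1 = 0 := by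
        apply sum_val_zero
        intro r hr hr2
        exact hP.1 (List.mem_map.2 ⟨r, hr, hr2⟩)
      rw [h2, add_zero]
      unfold val
      split_ifs
      · exact Pi.single_eq_same _ _
      · rw [Pi.neg_apply, Pi.single_eq_same]
    · have h1 : q.1 ≠ p.1 := by
        intro h3
        exact hP.1 (List.mem_map.2 ⟨p, h, h3.symm⟩)
      rw [ih hP.2 h]
      have h4 : val q p.1 = 0 := by
        unfold val
        split_ifs
        · exact Pi.single_eq_of_ne (Ne.symm h1) _
        · rw [Pi.neg_apply, Pi.single_eq_of_ne (Ne.symm h1), neg_zero]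
      rw [h4, zero_add]

/-- If a list `Q` of signed edges has the same total label as a list `P` of pairwise different
edges and is not longer than `P`, then it consists of the signed edges of `P`. -/
lemma mem_of_sum_eq (P Q : List ((α × X) × Bool)) (hP : (P.map Prod.fst).Nodup)
    (hlen : Q.length ≤ P.length) (hsum : (Q.map val).sum = (P.map val).sum) :
    Q.length = P.length ∧ ∀ q ∈ Q, q ∈ P := by
  have hne : ∀ b : Bool, (if b then (1 : ZMod 3) else -1) ≠ 0 := by decide
  have hinj : ∀ b c : Bool, (if b then (1 : ZMod 3) else -1) = (if c then 1 else -1) → b = c := by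
    decide
  have hsub : P.map Prod.fst ⊆ Q.map Prod.fst := by
    intro e he
    obtain ⟨p, hp, rfl⟩ := List.mem_map.1 he
    by_contra hcon
    have h1 := sum_val_zero Q p.1 (fun q hq h => hcon (List.mem_map.2 ⟨q, hq, h⟩))
    rw [hsum, sum_val_mem P hP p hp] at h1
    exact hne _ h1
  have hsp : (P.map Prod.fst).Subperm (Q.map Prod.fst) := List.subperm_of_subset hP hsub
  have hperm : (P.map Prod.fst).Perm (Q.map Prod.fst) :=
    hsp.perm_of_length_le (by simpa using hlen)
  have hQ : (Q.map Prod.fst).Nodup := hperm.nodup_iff.1 hP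
  refine ⟨by simpa using hperm.length_eq.symm, ?_⟩
  intro q hq
  have h1 : q.1 ∈ P.map Prod.fst := hperm.mem_iff.2 (List.mem_map.2 ⟨q, hq, rfl⟩)
  obtain ⟨p, hp, hpq⟩ := List.mem_map.1 h1
  have h2 := sum_val_mem Q hQ q hq
  have h3 := sum_val_mem P hP p hp
  rw [hsum, ← hpq, h3] at h2
  have h4 := hinj _ _ h2
  have : q = p := Prod.ext hpq.symm h4.symm
  rwa [this]

end Count

section Main

variable {α : Type} [Fintype α] [DecidableEq α]

/-- the signed edge used by the letter `U i` on the cycle -/
def cedge {m : ℕ} (U : ZMod m → α × Bool) (i : ZMod m) : (α × ZMod m) × Bool :=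
  (((U i).1, if (U i).2 then i + 1 else i), (U i).2)

lemma cedge_fst_inj {m : ℕ} {U : ZMod m → α × Bool} (hU : NoCancel U) {i j : ZMod m}
    (h : (cedge U i).1 = (cedge U j).1) : i = j := by
  unfold cedge at h
  simp only [Prod.mk.injEq] at h
  obtain ⟨h1, h2⟩ := h
  by_cases hi : (U i).2 <;> by_cases hj : (U j).2
  · simp only [hi, hj, if_true] at h2
    exact add_right_cancel h2
  · simp only [hi, hj, if_true, Bool.false_eq_true, if_false] at h2
    exfalso
    have h3 := hU i (by rw [h2]; exact h1)
    rw [h2, hi] at h3
    exact hj h3.symm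
  · simp only [hi, hj, if_true, Bool.false_eq_true, if_false] at h2
    exfalso
    have h3 := hU j (by rw [← h2]; exact h1.symm)
    rw [← h2, hj] at h3
    exact hi h3.symm
  · simpa [hi, hj] using h2

variable {m : ℕ} [NeZero m] {U : ZMod m → α × Bool} {π : α → Equiv.Perm (ZMod m)}

/-- the permutations `π` realise the cycle labelled by `U` -/
def Real (U : ZMod m → α × Bool) (π : α → Equiv.Perm (ZMod m)) : Prop :=
  ∀ a, (∀ i, U i = (a, true) → π a (i + 1) = i) ∧ (∀ i, U i = (a, false) → π a i = i + 1)

lemma step_U (hπ : Real U π) (i : ZMod m) : step π (U i) (i + 1) = i := by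
  unfold step
  rcases hUi : U i with ⟨a, b⟩
  cases b
  · simp only [Bool.false_eq_true, if_false]
    have := (hπ a).2 i hUi
    rw [← this]
    exact Equiv.symm_apply_apply (π a) i
  · simp only [if_true]
    exact (hπ a).1 i hUi

lemma edge_U (hπ : Real U π) (i : ZMod m) : (edge π (U i) (i + 1), (U i).2) = cedge U i := by
  unfold edge cedge
  rcases hUi : U i with ⟨a, b⟩
  cases b
  · simp only [Bool.false_eq_true, if_false]
    have := (hπ a).2 i hUi
    rw [← this]
    have h2 : (π a)⁻¹ (π a i) = i := Equiv.symm_apply_apply (π a) i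
    rw [h2]
  · simp

lemma act_W (hπ : Real U π) (k : ℕ) : ∀ j : ZMod m, act π (W U k j) (j + (k : ZMod m)) = j := by
  induction k with
  | zero => intro j; simp [W_zero, act]
  | succ k ih =>
    intro j
    rw [W_succ]
    show step π (U j) (act π (W U k (j + 1)) (j + ((k + 1 : ℕ) : ZMod m))) = j
    have h1 : j + ((k + 1 : ℕ) : ZMod m) = (j + 1) + (k : ZMod m) := by push_cast; ring
    rw [h1, ih (j + 1)]
    exact step_U hπ j

lemma path_W (hπ : Real U π) (k : ℕ) : ∀ j : ZMod m, path π (W U k j) (j + (k : ZMod m)) =
    (List.range k).map (fun t : ℕ => cedge U (j + (t : ZMod m))) := by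
  induction k with
  | zero => intro j; simp [W_zero, path]
  | succ k ih =>
    intro j
    rw [W_succ]
    have h1 : j + ((k + 1 : ℕ) : ZMod m) = (j + 1) + (k : ZMod m) := by push_cast; ring
    show (edge π (U j) (act π (W U k (j + 1)) (j + ((k + 1 : ℕ) : ZMod m))), (U j).2) ::
      path π (W U k (j + 1)) (j + ((k + 1 : ℕ) : ZMod m)) = _
    rw [h1, act_W hπ, ih (j + 1), edge_U hπ, List.range_succ_eq_map, List.map_cons, List.map_map]
    congr 1
    · simp
    · apply List.map_congr_left
      intro t _
      show cedge U (j + 1 + (t : ZMod m)) = cedge U (j + ((t + 1 : ℕ) : ZMod m))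
      congr 1
      push_cast
      ring

/-- a word all whose edges lie on the cycle reads a piece of the cycle -/
lemma word_of_path (hπ : Real U π) (y : ZMod m) : ∀ w : List (α × Bool),
    (∀ q ∈ path π w y, ∃ i, q = cedge U i) →
    w = W U w.length (act π w y) ∧ act π w y + (w.length : ZMod m) = y := by
  intro w
  induction w with
  | nil => intro _; simp [W_zero, act]
  | cons c w ih =>
    intro h
    have hw := ih (fun q hq => h q (by simp [path, hq]))
    obtain ⟨i, hi⟩ := h (edge π c (act π w y), c.2) (by simp [path])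
    set z := act π w y with hz
    have hc : c = U i ∧ z = i + 1 := by
      unfold cedge at hi
      have h1 := (Prod.mk.injEq _ _ _ _).mp hi
      have h2 : c.2 = (U i).2 := h1.2
      have h3 := h1.1
      unfold edge at h3
      by_cases hb : c.2
      · rw [if_pos hb] at h3
        have h4 := (Prod.mk.injEq _ _ _ _).mp h3
        rw [h2] at hb
        rw [if_pos hb] at h4
        exact ⟨Prod.ext h4.1 h2, h4.2⟩
      · rw [if_neg hb] at h3
        have h4 := (Prod.mk.injEq _ _ _ _).mp h3
        have hb' := hb
        rw [h2] at hb'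
        rw [if_neg hb'] at h4
        have hcU : c = U i := Prod.ext h4.1 h2
        refine ⟨hcU, ?_⟩
        have h5 : z = π c.1 i := by
          rw [← h4.2]
          exact (Equiv.apply_symm_apply (π c.1) z).symm
        rw [h5]
        apply (hπ c.1).2 i
        rw [← hcU]
        exact Prod.ext rfl (by simpa using hb)
    have hact : act π (c :: w) y = i := by
      show step π c (act π w y) = i
      rw [← hz, hc.2, hc.1]
      exact step_U hπ i
    rw [hact]
    refine ⟨?_, ?_⟩
    · rw [List.length_cons, W_succ, ← hc.1, ← hc.2]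
      congr 1
      exact hw.1
    · rw [List.length_cons]
      push_cast
      calc i + ((w.length : ZMod m) + 1) = (i + 1) + (w.length : ZMod m) := by ring
        _ = z + (w.length : ZMod m) := by rw [← hc.2]
        _ = y := hw.2

/-- The key step: if the images of `W U m 0` and `v` in the monomial group of the cycle are
conjugate and `v` is not longer than `m`, then they are conjugate in the free group. -/
lemma conj_of_rep (hU : NoCancel U) (hπ : Real U π) (v : List (α × Bool)) (hv : v.length ≤ m)
    (h : IsConj (rep π (mk (W U m 0))) (rep π (mk v))) :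
    IsConj (mk (W U m 0)) (mk v) := by
  have hm0 : (0 : ZMod m) + ((m : ℕ) : ZMod m) = 0 := by simp
  have hact : act π (W U m 0) 0 = 0 := by
    have := act_W hπ m 0
    rwa [hm0] at this
  have hpath : path π (W U m 0) 0 = (List.range m).map (fun t : ℕ => cedge U ((0 : ZMod m) + t)) := by
    have := path_W hπ m 0
    rwa [hm0] at this
  have h1 := rep_mk π (W U m 0) 0 0
  rw [hact, zero_add] at h1
  obtain ⟨y, hy⟩ := label_of_conj h h1
  rw [rep_mk, zero_add] at hy
  have hy1 : act π v y = y := congrArg Prod.fst hy
  have hy2 : ((path π v y).map val).sum = ((path π (W U m 0) 0).map val).sum :=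
    congrArg Prod.snd hy
  have hnodup : ((path π (W U m 0) 0).map Prod.fst).Nodup := by
    rw [hpath, List.map_map]
    apply List.Nodup.map_on _ List.nodup_range
    intro s hs t ht hst
    have h3 := cedge_fst_inj hU hst
    rw [zero_add, zero_add] at h3
    have h4 := congrArg ZMod.val h3
    rw [ZMod.val_natCast_of_lt (List.mem_range.1 hs), ZMod.val_natCast_of_lt (List.mem_range.1 ht)]
      at h4
    exact h4
  have hlen : (path π v y).length ≤ (path π (W U m 0) 0).length := by
    rw [path_length, path_length, W_length]
    exact hv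
  obtain ⟨hl, hmem⟩ := mem_of_sum_eq _ _ hnodup hlen hy2
  rw [path_length, path_length, W_length] at hl
  have hw := word_of_path hπ y v (fun q hq => by
    have := hmem q hq
    rw [hpath] at this
    obtain ⟨t, _, ht⟩ := List.mem_map.1 this
    exact ⟨_, ht.symm⟩)
  rw [hl, hy1] at hw
  rw [hw.1]
  exact conj_W U y

lemma exists_real (hU : NoCancel U) : ∃ π : α → Equiv.Perm (ZMod m), Real U π := by
  choose π hπ using fun a => exists_perm hU a
  exact ⟨π, hπ⟩

end Main

section Final

variable {α : Type} [Fintype α] [DecidableEq α]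

/-- a nonempty cyclically reduced list as a cyclic word -/
lemma exists_cyclic (u : List (α × Bool)) (hu : IsCyclicallyReduced u) (hne : u ≠ []) :
    ∃ (m : ℕ) (_ : NeZero m) (U : ZMod m → α × Bool), m = u.length ∧ NoCancel U ∧ W U m 0 = u := by
  have hpos : 0 < u.length := List.length_pos_iff.2 hne
  have hm : NeZero u.length := ⟨hpos.ne'⟩
  refine ⟨u.length, hm, fun i => u[i.val]'(ZMod.val_lt i), rfl, ?_, ?_⟩
  · intro i
    have hlt := ZMod.val_lt i
    rcases Nat.lt_or_ge (i.val + 1) u.length with h | h
    · have h1 : (i + 1).val = i.val + 1 := by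
        have h2 : (1 : ZMod u.length).val ≤ 1 := by
          rw [ZMod.val_one_eq_one_mod]
          exact Nat.mod_le _ _
        have h4 : 1 < u.length := by omega
        rw [ZMod.val_add_of_lt]
        · rw [ZMod.val_one_eq_one_mod, Nat.mod_eq_of_lt h4]
        · omega
      have h2 := (List.isChain_iff_getElem.1 hu.1) i.val h
      simpa [h1] using h2
    · have h3 : i.val = u.length - 1 := by omega
      have h1 : (i + 1).val = 0 := by
        have h5 : i + 1 = 0 := by
          have h6 : ((i.val + 1 : ℕ) : ZMod u.length) = 0 := by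
            have : i.val + 1 = u.length := by omega
            rw [this]
            exact ZMod.natCast_self _
          push_cast at h6
          rwa [ZMod.natCast_zmod_val] at h6
        rw [h5]
        exact ZMod.val_zero
      have h2 := hu.2 (u.getLast hne) (List.getLast_mem_getLast? hne) (u.head hne)
        (by rw [List.head?_eq_some_head hne]; rfl)
      have h7 : u[i.val]'(hlt) = u.getLast hne := by
        rw [List.getLast_eq_getElem]
        congr 1
      have h8 : u[(i + 1).val]'(ZMod.val_lt _) = u.head hne := by
        rw [List.head_eq_getElem]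
        congr 1
      show (u[i.val]'(hlt)).1 = (u[(i + 1).val]'(ZMod.val_lt _)).1 →
        (u[i.val]'(hlt)).2 = (u[(i + 1).val]'(ZMod.val_lt _)).2
      rw [h7, h8]
      exact h2
  · apply List.ext_getElem
    · rw [W_length]
    · intro k h1 h2
      unfold W
      rw [List.getElem_map, List.getElem_range]
      have h3 : ((0 : ZMod u.length) + (k : ZMod u.length)).val = k := by
        rw [zero_add]
        exact ZMod.val_natCast_of_lt h2
      simp only [h3]

lemma conj_reduceCyclically (g : FreeGroup α) :
    IsConj g (mk (reduceCyclically g.toWord)) := by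
  have h := reduceCyclically.conj_conjugator_reduceCyclically g.toWord
  have h2 := congrArg mk h
  rw [mk_toWord, ← mul_mk, ← mul_mk, ← inv_mk] at h2
  exact (isConj_iff.2 ⟨_, h2⟩).symm

/-- separation for a pair of cyclically reduced words, the first one at least as long -/
lemma sep_of_le (u v : List (α × Bool)) (hu : IsCyclicallyReduced u) (hlen : v.length ≤ u.length)
    (h : ¬ IsConj (mk u) (mk v)) :
    ∃ (G : Type) (_ : Group G) (_ : Finite G) (φ : FreeGroup α →* G),
      ¬ IsConj (φ (mk u)) (φ (mk v)) := by
  by_cases hne : u = []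
  · subst hne
    have hv : v = [] := List.length_eq_zero_iff.1 (Nat.le_zero.1 hlen)
    subst hv
    exact absurd (IsConj.refl _) h
  · obtain ⟨m, hm, U, hmu, hU, hW⟩ := exists_cyclic u hu hne
    obtain ⟨π, hπ⟩ := exists_real hU
    refine ⟨Mon α (ZMod m), inferInstance, inferInstance, rep π, ?_⟩
    intro hcon
    apply h
    rw [← hW] at hcon ⊢
    exact conj_of_rep hU hπ v (by rw [hmu]; exact hlen) hcon

/-- **Free groups of finite rank are conjugacy separable.** -/
theorem conj_separable (g h : FreeGroup α) (hgh : ¬ IsConj g h) :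
    ∃ (G : Type) (_ : Group G) (_ : Finite G) (φ : FreeGroup α →* G),
      ¬ IsConj (φ g) (φ h) := by
  have hg := conj_reduceCyclically g
  have hh := conj_reduceCyclically h
  set u := reduceCyclically g.toWord with hu
  set v := reduceCyclically h.toWord with hv
  have hcu : IsCyclicallyReduced u := reduceCyclically.isCyclicallyReduced isReduced_toWord
  have hcv : IsCyclicallyReduced v := reduceCyclically.isCyclicallyReduced isReduced_toWord
  have hconj : ∀ {G : Type} [Group G] (φ : FreeGroup α →* G), IsConj (φ g) (φ h) →
      IsConj (φ (mk u)) (φ (mk v)) := by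
    intro G _ φ hc
    exact ((φ.map_isConj hg).symm.trans hc).trans (φ.map_isConj hh)
  have huv : ¬ IsConj (mk u) (mk v) := fun hc => hgh ((hg.trans hc).trans hh.symm)
  rcases le_total v.length u.length with hl | hl
  · obtain ⟨G, hG, hfin, φ, hφ⟩ := sep_of_le u v hcu hl huv
    exact ⟨G, hG, hfin, φ, fun hc => hφ (hconj φ hc)⟩
  · obtain ⟨G, hG, hfin, φ, hφ⟩ := sep_of_le v u hcv hl (fun hc => huv hc.symm)
    exact ⟨G, hG, hfin, φ, fun hc => hφ (hconj φ hc).symm⟩

end Final

end Pool.BiInv
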