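import Mathlib
import Pool.Agent.BiInv.Defs
import Pool.Agent.BiInv.Build

set_option autoImplicit false

/-!
# The criterion: approximability = exact embeddability = profinite subadditivity
-/

namespace Pool.BiInv

open FreeGroup

variable {n : ℕ}

/-- the finite set of all letters and all suffixes of the words of the elements of `l` -/
noncomputable def suffixes (l : List (FreeGroup (Fin n))) : Finset (FreeGroup (Fin n)) := by
  classical
  exact insert 1 ((Finset.univ.image (fun c : Fin n × Bool => (mk [c] : FreeGroup (Fin n)))) ∪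
    (l.flatMap (fun w => w.toWord.tails.map mk)).toFinset)

lemma one_mem_suffixes (l : List (FreeGroup (Fin n))) : (1 : FreeGroup (Fin n)) ∈ suffixes l := by
  classical
  exact Finset.mem_insert_self _ _

lemma letter_mem_suffixes (l : List (FreeGroup (Fin n))) (c : Fin n × Bool) :
    (mk [c] : FreeGroup (Fin n)) ∈ suffixes l := by
  classical
  apply Finset.mem_insert_of_mem
  apply Finset.mem_union_left
  exact Finset.mem_image.2 ⟨c, Finset.mem_univ _, rfl⟩

lemma suffix_mem_suffixes (l : List (FreeGroup (Fin n))) (w : FreeGroup (Fin n)) (hw : w ∈ l)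
    (v : List (Fin n × Bool)) (hv : v <:+ w.toWord) : mk v ∈ suffixes l := by
  classical
  apply Finset.mem_insert_of_mem
  apply Finset.mem_union_right
  rw [List.mem_toFinset, List.mem_flatMap]
  exact ⟨w, hw, List.mem_map.2 ⟨v, (List.mem_tails v _).2 hv, rfl⟩⟩

/-- A partial monomorphism on `suffixes l` agrees on `l` with a homomorphism. -/
lemma exists_hom {F : Type} [Group F] (l : List (FreeGroup (Fin n)))
    (ι : FreeGroup (Fin n) → F)
    (hmul : ∀ a ∈ suffixes l, ∀ b ∈ suffixes l, a * b ∈ suffixes l → ι (a * b) = ι a * ι b) :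
    ι 1 = 1 ∧ ∃ φ : FreeGroup (Fin n) →* F, ∀ w ∈ l, φ w = ι w := by
  have h1 : ι 1 = 1 := by
    have := hmul 1 (one_mem_suffixes l) 1 (one_mem_suffixes l)
      (by rw [one_mul]; exact one_mem_suffixes l)
    rw [one_mul] at this
    exact (mul_eq_left.1 this.symm)
  refine ⟨h1, FreeGroup.lift (fun i => ι (of i)), ?_⟩
  set φ : FreeGroup (Fin n) →* F := FreeGroup.lift (fun i => ι (of i)) with hφ
  have hlet : ∀ c : Fin n × Bool, φ (mk [c]) = ι (mk [c]) := by
    rintro ⟨i, b⟩
    cases b
    · have h2 : (mk [(i, false)] : FreeGroup (Fin n)) = (of i)⁻¹ := rfl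
      have h3 : ι (of i) * ι (of i)⁻¹ = 1 := by
        have h4 := hmul (of i) (letter_mem_suffixes l (i, true)) (of i)⁻¹
          (letter_mem_suffixes l (i, false)) (by
            rw [mul_inv_cancel]; exact one_mem_suffixes l)
        rw [mul_inv_cancel, h1] at h4
        exact h4.symm
      rw [h2, _root_.map_inv, hφ, FreeGroup.lift_apply_of]
      exact (eq_inv_of_mul_eq_one_right h3).symm
    · have h2 : (mk [(i, true)] : FreeGroup (Fin n)) = of i := rfl
      rw [h2, hφ, FreeGroup.lift_apply_of]
  intro w hw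
  have key : ∀ v : List (Fin n × Bool), v <:+ w.toWord → φ (mk v) = ι (mk v) := by
    intro v
    induction v with
    | nil =>
      intro _
      rw [← one_eq_mk, _root_.map_one, h1]
    | cons c v ih =>
      intro hv
      have hv' : v <:+ w.toWord := (List.suffix_cons c v).trans hv
      have h2 : (mk (c :: v) : FreeGroup (Fin n)) = mk [c] * mk v := by rw [mul_mk]; rfl
      rw [h2, _root_.map_mul, hlet, ih hv']
      exact (hmul _ (letter_mem_suffixes l c) _ (suffix_mem_suffixes l w hw v hv')
        (by rw [← h2]; exact suffix_mem_suffixes l w hw _ hv)).symm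
  have := key w.toWord (List.suffix_refl _)
  rwa [mk_toWord] at this

/-- Approximable metrics are profinitely subadditive. -/
theorem profSub_of_approximable (ρ : FreeGroup (Fin n) → FreeGroup (Fin n) → ℝ)
    (h : Approximable ρ) : ProfSub ρ := by
  intro a L hcl
  have key : ∀ ε : ℝ, 0 < ε → ρ 1 a ≤ (L.map (ρ 1)).sum + ((L.length : ℝ) + 1) * ε := by
    intro ε hε
    obtain ⟨F, hG, hF, d, hd, ι, _, hmul, hdist⟩ := h (suffixes (a :: L)) ε hε
    obtain ⟨hι1, φ, hφ⟩ := exists_hom (a :: L) ι hmul
    have hmemw : ∀ w ∈ a :: L, w ∈ suffixes (a :: L) := by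
      intro w hw
      have := suffix_mem_suffixes (a :: L) w hw w.toWord (List.suffix_refl _)
      rwa [mk_toWord] at this
    have hnear : ∀ w ∈ a :: L, |d 1 (φ w) - ρ 1 w| ≤ ε := by
      intro w hw
      have := hdist 1 (one_mem_suffixes _) w (hmemw w hw)
      rwa [hι1, ← hφ w hw] at this
    have hfin : Finite F := Finite.of_fintype F
    obtain ⟨M, hM, hMa⟩ := hcl F φ
    have hp := hd.toPseudo
    have h1 : d 1 (φ a) ≤ ((L.map φ).map (d 1)).sum := by
      rw [← hMa, hp.sum_norm_conj hM]
      exact hp.norm_prod_le M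
    have h2 : ((L.map φ).map (d 1)).sum ≤ (L.map (ρ 1)).sum + (L.length : ℝ) * ε := by
      have h3 : ∀ L' : List (FreeGroup (Fin n)), (∀ w ∈ L', w ∈ a :: L) →
          ((L'.map φ).map (d 1)).sum ≤ (L'.map (ρ 1)).sum + (L'.length : ℝ) * ε := by
        intro L'
        induction L' with
        | nil => intro _; simp
        | cons w L' ih =>
          intro hL'
          have h4 := ih (fun v hv => hL' v (List.mem_cons_of_mem _ hv))
          have h5 := (abs_le.1 (hnear w (hL' w List.mem_cons_self))).2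
          rw [List.map_cons, List.map_cons, List.sum_cons, List.map_cons, List.sum_cons,
            List.length_cons]
          push_cast
          linarith
      exact h3 L (fun w hw => List.mem_cons_of_mem _ hw)
    have h6 := (abs_le.1 (hnear a List.mem_cons_self)).1
    linarith
  apply le_of_forall_pos_le_add
  intro ε hε
  have hpos : (0 : ℝ) < (L.length : ℝ) + 1 := by positivity
  have := key (ε / ((L.length : ℝ) + 1)) (by positivity)
  rwa [mul_div_cancel₀ _ hpos.ne'] at this

/-- Profinitely subadditive pseudometrics embed exactly on the finite sets they separate. -/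
theorem embeds_zero_of_profSub (ρ : FreeGroup (Fin n) → FreeGroup (Fin n) → ℝ)
    (hρ : IsBiInvPseudo ρ) (h : ProfSub ρ) (A : Finset (FreeGroup (Fin n)))
    (hA : ∀ a ∈ A, ∀ b ∈ A, a ≠ b → 0 < ρ a b) : Embeds ρ A 0 := by
  obtain ⟨F, hG, hF, d, φ, hd, hinj, hdist⟩ := exists_exact ρ hρ h A hA
  refine ⟨F, hG, Fintype.ofFinite F, d, hd, φ, hinj, fun a _ b _ _ => _root_.map_mul φ a b, ?_⟩
  intro a ha b hb
  rw [hdist a ha b hb, sub_self, abs_zero]

lemma IsBiInvMetric.pos {G : Type} [Group G] {d : G → G → ℝ} (h : IsBiInvMetric d) {x y : G}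
    (hxy : x ≠ y) : 0 < d x y := by
  rcases (h.toPseudo.nonneg x y).lt_or_eq with h1 | h1
  · exact h1
  · exact absurd ((h.zero_iff x y).1 h1.symm) hxy

/-- Profinitely subadditive metrics embed exactly. -/
theorem embeds_zero_of_profSub' (ρ : FreeGroup (Fin n) → FreeGroup (Fin n) → ℝ)
    (hρ : IsBiInvMetric ρ) (h : ProfSub ρ) (A : Finset (FreeGroup (Fin n))) : Embeds ρ A 0 :=
  embeds_zero_of_profSub ρ hρ.toPseudo h A (fun _ _ _ _ hab => hρ.pos hab)

lemma Embeds.mono {ρ : FreeGroup (Fin n) → FreeGroup (Fin n) → ℝ}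
    {A : Finset (FreeGroup (Fin n))} {ε ε' : ℝ} (h : Embeds ρ A ε) (hε : ε ≤ ε') :
    Embeds ρ A ε' := by
  obtain ⟨F, hG, hF, d, hd, ι, h1, h2, h3⟩ := h
  exact ⟨F, hG, hF, d, hd, ι, h1, h2, fun a ha b hb => (h3 a ha b hb).trans hε⟩

end Pool.BiInv
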