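import Mathlib
import Pool.Agent.BiInv.Defs
import Pool.Agent.BiInv.ConjSep
import Pool.Agent.BiInv.Closed
import Pool.Agent.BiInv.Build
import Pool.Agent.BiInv.Criterion

set_option autoImplicit false

/-!
# Closure properties, the local theorem
-/

namespace Pool.BiInv

section Cone

variable {Γ : Type}

lemma sum_map_add' (L : List Γ) (f g : Γ → ℝ) :
    (L.map (fun x => f x + g x)).sum = (L.map f).sum + (L.map g).sum := by
  induction L with
  | nil => simp
  | cons x L ih => simp only [List.map_cons, List.sum_cons, ih]; ring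

lemma sum_map_mul' (L : List Γ) (c : ℝ) (f : Γ → ℝ) :
    (L.map (fun x => c * f x)).sum = c * (L.map f).sum := by
  induction L with
  | nil => simp
  | cons x L ih => simp only [List.map_cons, List.sum_cons, ih]; ring

lemma sum_map_le' (L : List Γ) {f g : Γ → ℝ} (h : ∀ x, f x ≤ g x) :
    (L.map f).sum ≤ (L.map g).sum := by
  induction L with
  | nil => simp
  | cons x L ih =>
    simp only [List.map_cons, List.sum_cons]
    exact add_le_add (h x) ih

variable [Group Γ] {σ τ : Γ → Γ → ℝ}

lemma ProfSub.add (hσ : ProfSub σ) (hτ : ProfSub τ) : ProfSub (fun x y => σ x y + τ x y) := by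
  intro a L h
  show σ 1 a + τ 1 a ≤ (L.map (fun x => σ 1 x + τ 1 x)).sum
  rw [sum_map_add']
  exact add_le_add (hσ a L h) (hτ a L h)

lemma ProfSub.smul (hσ : ProfSub σ) {c : ℝ} (hc : 0 ≤ c) : ProfSub (fun x y => c * σ x y) := by
  intro a L h
  show c * σ 1 a ≤ (L.map (fun x => c * σ 1 x)).sum
  rw [sum_map_mul']
  exact mul_le_mul_of_nonneg_left (hσ a L h) hc

lemma ProfSub.max (hσ : ProfSub σ) (hτ : ProfSub τ) :
    ProfSub (fun x y => max (σ x y) (τ x y)) := by
  intro a L h
  show Max.max (σ 1 a) (τ 1 a) ≤ (L.map (fun x => Max.max (σ 1 x) (τ 1 x))).sum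
  exact max_le ((hσ a L h).trans (sum_map_le' L fun x => le_max_left _ _))
    ((hτ a L h).trans (sum_map_le' L fun x => le_max_right _ _))

lemma ProfSub.lim {s : ℕ → Γ → Γ → ℝ} (hs : ∀ k, ProfSub (s k))
    (hlim : ∀ x y, Filter.Tendsto (fun k => s k x y) Filter.atTop (nhds (σ x y))) :
    ProfSub σ := by
  intro a L h
  have h1 : ∀ L : List Γ, Filter.Tendsto (fun k => (L.map (s k 1)).sum) Filter.atTop
      (nhds (L.map (σ 1)).sum) := by
    intro L
    induction L with
    | nil => simp
    | cons x L ih =>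
      simp only [List.map_cons, List.sum_cons]
      exact (hlim 1 x).add ih
  exact le_of_tendsto_of_tendsto' (hlim 1 a) (h1 L) (fun k => hs k a L h)

end Cone

/-- Trivial factors can be dropped. -/
lemma InClosure.filter {Γ : Type} [Group Γ] [DecidableEq Γ] {a : Γ} {L : List Γ}
    (h : InClosure a L) : InClosure a (L.filter (fun b => b ≠ 1)) := by
  intro F _ _ φ
  obtain ⟨M, hM, hMa⟩ := h F φ
  have key : ∀ (L : List Γ) (M : List F), List.Forall₂ IsConj (L.map φ) M →
      ∃ M' : List F, List.Forall₂ IsConj ((L.filter (fun b => b ≠ 1)).map φ) M' ∧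
        M'.prod = M.prod := by
    intro L
    induction L with
    | nil =>
      intro M hM
      rw [List.map_nil, List.forall₂_nil_left_iff] at hM
      exact ⟨[], by simp, by rw [hM]⟩
    | cons b L ih =>
      intro M hM
      rw [List.map_cons, List.forall₂_cons_left_iff] at hM
      obtain ⟨m, M1, hb, hL, rfl⟩ := hM
      obtain ⟨M', hM', hMp⟩ := ih M1 hL
      by_cases hb1 : b = 1
      · have hm : m = 1 := by
          rw [hb1, map_one] at hb
          obtain ⟨c, hc⟩ := isConj_iff.1 hb
          rw [← hc]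
          simp
        refine ⟨M', ?_, by rw [List.prod_cons, hm, one_mul, hMp]⟩
        rw [List.filter_cons_of_neg (by simpa using hb1)]
        exact hM'
      · refine ⟨m :: M', ?_, by rw [List.prod_cons, List.prod_cons, hMp]⟩
        rw [List.filter_cons_of_pos (by simpa using hb1), List.map_cons]
        exact List.Forall₂.cons hb hM'
  obtain ⟨M', hM', hMp⟩ := key L M hM
  exact ⟨M', hM', hMp.trans hMa⟩

/-- **Band theorem.** A class function with values between `σ + m` and `σ + 2m` off the diagonal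
is a profinitely subadditive bi-invariant metric, if `σ` is profinitely subadditive. -/
theorem band {n : ℕ} (σ ρ : FreeGroup (Fin n) → FreeGroup (Fin n) → ℝ) (m : ℝ) (hm : 0 < m)
    (hσ : IsBiInvPseudo σ) (hσs : ProfSub σ)
    (h0 : ∀ x, ρ x x = 0) (hsymm : ∀ x y, ρ x y = ρ y x)
    (hleft : ∀ g x y, ρ (g * x) (g * y) = ρ x y)
    (hright : ∀ g x y, ρ (x * g) (y * g) = ρ x y)
    (hlow : ∀ x y, x ≠ y → σ x y + m ≤ ρ x y) (hup : ∀ x y, x ≠ y → ρ x y ≤ σ x y + 2 * m) :
    IsBiInvMetric ρ ∧ ProfSub ρ := by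
  classical
  have hpos : ∀ x y, x ≠ y → 0 < ρ x y := by
    intro x y hxy
    have h1 := hlow x y hxy
    have h2 := hσ.nonneg x y
    linarith
  have hnn : ∀ x y, 0 ≤ ρ x y := by
    intro x y
    by_cases h : x = y
    · rw [h, h0]
    · exact (hpos x y h).le
  have hmet : IsBiInvMetric ρ := by
    refine ⟨?_, hsymm, ?_, hleft, hright⟩
    · intro x y
      constructor
      · intro h
        by_contra hxy
        exact (hpos x y hxy).ne' h
      · rintro rfl
        exact h0 x
    · intro x y z
      by_cases hxy : x = y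
      · rw [hxy, h0, zero_add]
      by_cases hyz : y = z
      · rw [hyz, h0, add_zero]
      by_cases hxz : x = z
      · rw [hxz, h0]
        exact add_nonneg (hnn _ _) (hnn _ _)
      have h1 := hlow x y hxy
      have h2 := hlow y z hyz
      have h3 := hup x z hxz
      have h4 := hσ.tri x y z
      linarith
  refine ⟨hmet, ?_⟩
  have hp := hmet.toPseudo
  intro a L hcl
  have hcl' := hcl.filter
  set L' := L.filter (fun b => b ≠ 1) with hL'
  have hne : ∀ b ∈ L', b ≠ 1 := by
    intro b hb
    rw [hL', List.mem_filter] at hb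
    simpa using hb.2
  have hsum : (L'.map (ρ 1)).sum ≤ (L.map (ρ 1)).sum := by
    rw [hL']
    clear hcl hcl' hL' hne L'
    induction L with
    | nil => simp
    | cons b L ih =>
      by_cases hb : b = 1
      · rw [List.filter_cons_of_neg (by simpa using hb), List.map_cons, List.sum_cons, hb, h0,
          zero_add]
        exact ih
      · rw [List.filter_cons_of_pos (by simpa using hb), List.map_cons, List.sum_cons,
          List.map_cons, List.sum_cons]
        linarith
  refine le_trans ?_ hsum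
  rcases L' with _ | ⟨b, _ | ⟨b', L''⟩⟩
  · -- the empty product
    have ha : a = 1 := by
      by_contra ha
      have h1 : ¬ IsConj a 1 := by
        intro h
        exact ha (by simpa using h)
      obtain ⟨G, _, _, φ, hφ⟩ := conj_separable a 1 h1
      obtain ⟨M, hM, hMa⟩ := hcl' G φ
      rw [List.map_nil, List.forall₂_nil_left_iff] at hM
      apply hφ
      rw [← hMa, hM, map_one]
      exact IsConj.refl _
    rw [ha, h0]
    simp
  · -- one factor
    have hab : IsConj a b := by
      by_contra hab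
      obtain ⟨G, _, _, φ, hφ⟩ := conj_separable a b hab
      obtain ⟨M, hM, hMa⟩ := hcl' G φ
      rw [List.map_cons, List.map_nil, List.forall₂_cons_left_iff] at hM
      obtain ⟨x, M', hx, hM', rfl⟩ := hM
      rw [List.forall₂_nil_left_iff] at hM'
      apply hφ
      rw [← hMa, hM', List.prod_cons, List.prod_nil, mul_one]
      exact hx.symm
    rw [hp.norm_isConj hab]
    simp
  · -- at least two factors
    by_cases ha : a = 1
    · rw [ha, h0]
      apply List.sum_nonneg
      intro r hr
      obtain ⟨c, _, rfl⟩ := List.mem_map.1 hr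
      exact hnn _ _
    have h1 := hσs a _ hcl'
    have h2 := hup 1 a (Ne.symm ha)
    have h3 := hlow 1 b (Ne.symm (hne b List.mem_cons_self))
    have h4 := hlow 1 b' (Ne.symm (hne b' (List.mem_cons_of_mem _ List.mem_cons_self)))
    have h5 : (L''.map (σ 1)).sum ≤ (L''.map (ρ 1)).sum := by
      apply sum_map_le'
      intro x
      by_cases hx : (1 : FreeGroup (Fin n)) = x
      · rw [← hx, h0, hσ.self]
      · have := hlow 1 x hx
        linarith
    simp only [List.map_cons, List.sum_cons] at h1 ⊢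
    linarith

/-- The zero pseudometric. -/
lemma zero_pseudo {Γ : Type} [Group Γ] : IsBiInvPseudo (fun _ _ : Γ => (0 : ℝ)) :=
  ⟨fun _ => rfl, fun _ _ => rfl, fun _ _ _ => by simp, fun _ _ _ => rfl, fun _ _ _ => rfl⟩

lemma zero_profSub {Γ : Type} [Group Γ] : ProfSub (fun _ _ : Γ => (0 : ℝ)) := by
  intro a L _
  have h1 : ∀ L : List Γ, (L.map (fun _ : Γ => (0 : ℝ))).sum = 0 := by
    intro L
    induction L with
    | nil => rfl
    | cons x L ih => rw [List.map_cons, List.sum_cons, ih, add_zero]
  exact (h1 L).ge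

open Classical in
/-- The discrete metric. -/
noncomputable def disc {Γ : Type} (x y : Γ) : ℝ := if x = y then 0 else 1

lemma disc_props {n : ℕ} : IsBiInvMetric (disc : FreeGroup (Fin n) → FreeGroup (Fin n) → ℝ) ∧
    ProfSub (disc : FreeGroup (Fin n) → FreeGroup (Fin n) → ℝ) := by
  classical
  apply band (fun _ _ => 0) disc 1 one_pos zero_pseudo zero_profSub
  · intro x; simp [disc]
  · intro x y
    by_cases h : x = y
    · rw [h]
    · simp [disc, h, Ne.symm h]
  · intro g x y; simp [disc]
  · intro g x y; simp [disc]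
  · intro x y hxy; simp [disc, hxy]
  · intro x y hxy; simp [disc, hxy]

/-- For bi-invariant pseudometrics, profinite subadditivity implies approximability. -/
theorem approximable_of_profSub {n : ℕ} (σ : FreeGroup (Fin n) → FreeGroup (Fin n) → ℝ)
    (hσ : IsBiInvPseudo σ) (h : ProfSub σ) : Approximable σ := by
  classical
  intro A ε hε
  obtain ⟨hd1, hd2⟩ := disc_props (n := n)
  let τ : FreeGroup (Fin n) → FreeGroup (Fin n) → ℝ := fun x y => σ x y + ε * disc x y
  have hτs : ProfSub τ := h.add (hd2.smul hε.le)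
  have hτ : IsBiInvPseudo τ := by
    refine ⟨?_, ?_, ?_, ?_, ?_⟩
    · intro x
      show σ x x + ε * disc x x = 0
      rw [hσ.self, (hd1.zero_iff x x).2 rfl]
      ring
    · intro x y
      show σ x y + ε * disc x y = σ y x + ε * disc y x
      rw [hσ.symm, hd1.symm]
    · intro x y z
      show σ x z + ε * disc x z ≤ σ x y + ε * disc x y + (σ y z + ε * disc y z)
      have h1 := hσ.tri x y z
      have h2 := mul_le_mul_of_nonneg_left (hd1.tri x y z) hε.le
      linarith
    · intro g x y
      show σ (g * x) (g * y) + ε * disc (g * x) (g * y) = σ x y + ε * disc x y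
      rw [hσ.left, hd1.left]
    · intro g x y
      show σ (x * g) (y * g) + ε * disc (x * g) (y * g) = σ x y + ε * disc x y
      rw [hσ.right, hd1.right]
  have hpos : ∀ x y, x ≠ y → 0 < τ x y := by
    intro x y hxy
    have h1 := hσ.nonneg x y
    have h2 : disc x y = 1 := if_neg hxy
    show 0 < σ x y + ε * disc x y
    rw [h2]
    linarith
  obtain ⟨F, hF1, hF2, d, hd, ι, h1, h2, h3⟩ :=
    embeds_zero_of_profSub τ hτ hτs A (fun a _ b _ hab => hpos a b hab)
  refine ⟨F, hF1, hF2, d, hd, ι, h1, h2, ?_⟩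
  intro a ha b hb
  have h4 := h3 a ha b hb
  have h5 : d (ι a) (ι b) = τ a b := by
    have := abs_nonpos_iff.1 h4
    linarith
  rw [h5]
  show |σ a b + ε * disc a b - σ a b| ≤ ε
  have h6 : σ a b + ε * disc a b - σ a b = ε * disc a b := by ring
  rw [h6]
  unfold disc
  split_ifs
  · simp [hε.le]
  · simp [abs_of_pos hε]

/-- **Criterion.** -/
theorem criterion {n : ℕ} (ρ : FreeGroup (Fin n) → FreeGroup (Fin n) → ℝ) :
    (IsBiInvPseudo ρ → (Approximable ρ ↔ ProfSub ρ)) ∧
    (IsBiInvMetric ρ → (Approximable ρ ↔ ∀ A : Finset (FreeGroup (Fin n)), Embeds ρ A 0)) := by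
  refine ⟨fun hρ => ⟨profSub_of_approximable ρ, approximable_of_profSub ρ hρ⟩,
    fun hρ => ⟨fun h A => embeds_zero_of_profSub' ρ hρ (profSub_of_approximable ρ h) A,
      fun h A ε hε => (h A).mono hε.le⟩⟩

/-- **Local theorem.** -/
theorem local_embeds {n : ℕ} (ρ σ : FreeGroup (Fin n) → FreeGroup (Fin n) → ℝ) (m : ℝ)
    (hm : 0 < m) (hρ : IsBiInvMetric ρ) (hσ : IsBiInvPseudo σ) (hσs : ProfSub σ)
    (hgap : ∀ g, g ≠ 1 → σ 1 g + m ≤ ρ 1 g)
    (A : Finset (FreeGroup (Fin n))) (hA : ∀ a ∈ A, ∀ b ∈ A, ρ a b ≤ σ a b + 2 * m) :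
    Embeds ρ A 0 := by
  classical
  have hp := hρ.toPseudo
  have hgap' : ∀ x y, x ≠ y → σ x y + m ≤ ρ x y := by
    intro x y hxy
    rw [hσ.eq_norm x y, hp.eq_norm x y]
    exact hgap _ (fun h => hxy (inv_mul_eq_one.1 h))
  let ρ' : FreeGroup (Fin n) → FreeGroup (Fin n) → ℝ := fun x y =>
    if x = y then 0 else min (ρ x y) (σ x y + 2 * m)
  have hne : ∀ x y, x ≠ y → ρ' x y = min (ρ x y) (σ x y + 2 * m) := fun x y hxy => if_neg hxy
  obtain ⟨hmet, hps⟩ := band σ ρ' m hm hσ hσs (fun x => if_pos rfl)
    (by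
      intro x y
      show (if x = y then (0 : ℝ) else min (ρ x y) (σ x y + 2 * m)) =
        (if y = x then (0 : ℝ) else min (ρ y x) (σ y x + 2 * m))
      rw [hρ.symm x y, hσ.symm x y]
      simp only [eq_comm])
    (by
      intro g x y
      show (if g * x = g * y then (0 : ℝ) else min (ρ (g * x) (g * y)) (σ (g * x) (g * y) + 2 * m))
        = (if x = y then (0 : ℝ) else min (ρ x y) (σ x y + 2 * m))
      rw [hρ.left, hσ.left]
      simp only [mul_right_inj])
    (by
      intro g x y
      show (if x * g = y * g then (0 : ℝ) else min (ρ (x * g) (y * g)) (σ (x * g) (y * g) + 2 * m))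
        = (if x = y then (0 : ℝ) else min (ρ x y) (σ x y + 2 * m))
      rw [hρ.right, hσ.right]
      simp only [mul_left_inj])
    (by
      intro x y hxy
      rw [hne x y hxy]
      exact le_min (hgap' x y hxy) (by linarith))
    (by
      intro x y hxy
      rw [hne x y hxy]
      exact min_le_right _ _)
  obtain ⟨F, hF1, hF2, d, hd, ι, h1, h2, h3⟩ := embeds_zero_of_profSub' ρ' hmet hps A
  refine ⟨F, hF1, hF2, d, hd, ι, h1, h2, ?_⟩
  intro a ha b hb
  have h4 : ρ' a b = ρ a b := by
    by_cases hab : a = b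
    · rw [hab, (hmet.zero_iff b b).2 rfl, (hρ.zero_iff b b).2 rfl]
    · rw [hne a b hab]
      exact min_eq_left (hA a ha b hb)
  rw [← h4]
  exact h3 a ha b hb

end Pool.BiInv
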